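import Pool.Agent.H43.OPC.Basic

set_option autoImplicit false
set_option linter.unusedSectionVars false

/-!
# Antisymmetrisers, commutation, supports
-/

open Equiv

namespace Pool.Agent.H43.OPC

variable {k : Type*} [Field k] [CharZero k]
variable {ι : Type*} [Fintype ι] [DecidableEq ι] {J : Type*} [Fintype J] [DecidableEq J]
variable {E : Type*} [AddCommGroup E] [Module k E]

lemma asym_cons {L : List ι} (hL : L.Nodup) (z : ι) (φ : Md ι J E) :
    asym k (z :: L) φ = asym k L φ - ∑ z' ∈ L.toFinset, act k (swap z' z) (asym k L φ) := by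
  have h1 : (L.map fun z' => act (J := J) (E := E) k (swap z' z)).sum
      = ∑ z' ∈ L.toFinset, act (J := J) (E := E) k (swap z' z) :=
    (List.sum_toFinset _ hL).symm
  show ((1 - (L.map fun z' => act k (swap z' z)).sum) * asym k L : Module.End k (Md ι J E)) φ = _
  rw [h1, sub_mul, one_mul, LinearMap.sub_apply, Module.End.mul_apply, LinearMap.sum_apply]

lemma asym_An {L : List ι} (hL : L.Nodup) (φ : Md ι J E) :
    An (act k) L.toFinset (asym k L φ) := by
  induction L with
  | nil => intro x hx; simp at hx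
  | cons z L ih =>
    rw [List.nodup_cons] at hL
    have h1 := an_step (ih hL.2) (y := z) (by rw [List.mem_toFinset]; exact hL.1)
    rw [List.toFinset_cons, asym_cons hL.2]
    exact h1

lemma asym_of_An {L : List ι} (hL : L.Nodup) {φ : Md ι J E} (h : An (act k) L.toFinset φ) :
    asym k L φ = (L.length.factorial : k) • φ := by
  induction L with
  | nil => simp [asym]
  | cons z L ih =>
    rw [List.nodup_cons] at hL
    rw [List.toFinset_cons] at h
    have hz : z ∉ L.toFinset := by rw [List.mem_toFinset]; exact hL.1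
    have h1 := ih hL.2 (h.mono (Finset.subset_insert _ _))
    rw [asym_cons hL.2, h1]
    have h2 : ∀ z' ∈ L.toFinset, act k (swap z' z) ((L.length.factorial : k) • φ)
        = -((L.length.factorial : k) • φ) := by
      intro z' hz'
      rw [map_smul, h z' (Finset.mem_insert_of_mem hz') z (Finset.mem_insert_self _ _)
        (by rintro rfl; exact hz hz'), smul_neg]
    rw [Finset.sum_congr rfl h2, Finset.sum_neg_distrib, Finset.sum_const, sub_neg_eq_add,
      List.toFinset_card_of_nodup hL.2, List.length_cons, Nat.factorial_succ, Nat.cast_mul,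
      mul_smul, Nat.cast_succ, add_smul, one_smul, Nat.cast_smul_eq_nsmul, add_comm,
      Nat.cast_smul_eq_nsmul]

lemma asym_comm (T : Md ι J E →ₗ[k] Md ι J E) {L : List ι}
    (hT : ∀ x ∈ L, ∀ y ∈ L, ∀ φ, T (act k (swap x y) φ) = act k (swap x y) (T φ))
    (φ : Md ι J E) : T (asym k L φ) = asym k L (T φ) := by
  induction L with
  | nil => rfl
  | cons z L ih =>
    have ih' := ih (fun x hx y hy => hT x (List.mem_cons_of_mem _ hx) y (List.mem_cons_of_mem _ hy))
    show T (((1 - (L.map fun z' => act k (swap z' z)).sum) * asym k L :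
        Module.End k (Md ι J E)) φ)
      = ((1 - (L.map fun z' => act k (swap z' z)).sum) * asym k L :
        Module.End k (Md ι J E)) (T φ)
    rw [Module.End.mul_apply, Module.End.mul_apply, ← ih', LinearMap.sub_apply,
      LinearMap.sub_apply, map_sub, Module.End.one_apply, Module.End.one_apply]
    congr 1
    have key : ∀ (L' : List ι), (∀ x ∈ L', x ∈ L) → ∀ w,
        T ((L'.map fun z' => act k (swap z' z)).sum w)
          = (L'.map fun z' => act k (swap z' z)).sum (T w) := by
      intro L'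
      induction L' with
      | nil => intro _ w; simp
      | cons a L' ih2 =>
        intro h w
        rw [List.map_cons, List.sum_cons, LinearMap.add_apply, LinearMap.add_apply, map_add,
          ih2 (fun x hx => h x (List.mem_cons_of_mem _ hx)),
          hT a (List.mem_cons_of_mem _ (h a List.mem_cons_self)) z List.mem_cons_self]
    exact key L (fun x hx => hx) _

/-- invariant supports -/
lemma act_supp {P : (ι → Col J) → Prop} {x y : ι} (hP : ∀ χ, P χ → P (χ ∘ ⇑(swap x y)))
    {φ : Md ι J E} (h : ∀ χ ∈ φ.support, P χ) : ∀ χ ∈ (act k (swap x y) φ).support, P χ := by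
  classical
  intro χ hχ
  rw [act_swap] at hχ
  obtain ⟨a, ha, rfl⟩ := pf_supp hχ
  exact hP a (h a ha)

lemma sub_supp {P : (ι → Col J) → Prop} {φ ψ : Md ι J E} (h : ∀ χ ∈ φ.support, P χ)
    (h' : ∀ χ ∈ ψ.support, P χ) : ∀ χ ∈ (φ - ψ).support, P χ := by
  classical
  intro χ hχ
  rcases Finset.mem_union.mp (Finsupp.support_sub hχ) with h1 | h1
  · exact h χ h1
  · exact h' χ h1

lemma sum_supp {P : (ι → Col J) → Prop} {κ : Type*} (s : Finset κ) {f : κ → Md ι J E}
    (h : ∀ i ∈ s, ∀ χ ∈ (f i).support, P χ) : ∀ χ ∈ (∑ i ∈ s, f i).support, P χ := by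
  classical
  induction s using Finset.induction_on with
  | empty => intro χ hχ; simp at hχ
  | insert a s ha ih =>
    intro χ hχ
    rw [Finset.sum_insert ha] at hχ
    rcases Finset.mem_union.mp (Finsupp.support_add hχ) with h1 | h1
    · exact h a (Finset.mem_insert_self _ _) χ h1
    · exact ih (fun i hi => h i (Finset.mem_insert_of_mem hi)) χ h1

lemma asym_supp {P : (ι → Col J) → Prop} {L : List ι} (hL : L.Nodup)
    (hP : ∀ x ∈ L, ∀ y ∈ L, ∀ χ, P χ → P (χ ∘ ⇑(swap x y)))
    {φ : Md ι J E} (h : ∀ χ ∈ φ.support, P χ) : ∀ χ ∈ (asym k L φ).support, P χ := by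
  induction L with
  | nil => exact h
  | cons z L ih =>
    rw [List.nodup_cons] at hL
    have ih' := ih hL.2
      (fun x hx y hy => hP x (List.mem_cons_of_mem _ hx) y (List.mem_cons_of_mem _ hy))
    rw [asym_cons hL.2]
    refine sub_supp ih' (sum_supp _ fun z' hz' => act_supp (hP z' ?_ z List.mem_cons_self) ih')
    exact List.mem_cons_of_mem _ (List.mem_toFinset.mp hz')

/-! ### commutations -/

lemma mg_act (j : J) (π : Perm ι) (φ : Md ι J E) : mg k j (act k π φ) = act k π (mg k j φ) := by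
  show pf k _ (pf k _ φ) = pf k _ (pf k _ φ)
  rw [pf_pf, pf_pf]
  rfl

lemma ins_act {W : Finset ι} {B : ι → Col J} {x y : ι} (hx : x ∉ W) (hy : y ∉ W)
    (φ : Md ι J E) : ins k W B (act k (swap x y) φ) = act k (swap x y) (ins k W B φ) := by
  rw [act_swap, act_swap]
  show pf k _ (pf k _ φ) = pf k _ (pf k _ φ)
  rw [pf_pf, pf_pf]
  refine pf_congr fun χ _ => ?_
  funext t
  simp only [Function.comp]
  by_cases ht : t ∈ W
  · have h1 : t ≠ x := fun e => hx (e ▸ ht)
    have h2 : t ≠ y := fun e => hy (e ▸ ht)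
    rw [swap_apply_of_ne_of_ne h1 h2, Finset.piecewise_eq_of_mem _ _ _ ht,
      Finset.piecewise_eq_of_mem _ _ _ ht]
  · rw [Finset.piecewise_eq_of_notMem _ _ _ ht]
    have h1 : swap x y t ∉ W := by
      by_cases h2 : t = x
      · subst h2; rwa [swap_apply_left]
      · by_cases h3 : t = y
        · subst h3; rwa [swap_apply_right]
        · rwa [swap_apply_of_ne_of_ne h2 h3]
    rw [Finset.piecewise_eq_of_notMem _ _ _ h1]
    rfl

lemma ins_ins_disj {W W' : Finset ι} {B B' : ι → Col J} (h : Disjoint W W') (φ : Md ι J E) :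
    ins k W B (ins k W' B' φ) = ins k W' B' (ins k W B φ) := by
  show pf k _ (pf k _ φ) = pf k _ (pf k _ φ)
  rw [pf_pf, pf_pf]
  refine pf_congr fun χ _ => ?_
  funext t
  by_cases ht : t ∈ W
  · have ht' : t ∉ W' := Finset.disjoint_left.mp h ht
    rw [Finset.piecewise_eq_of_mem _ _ _ ht, Finset.piecewise_eq_of_notMem _ _ _ ht',
      Finset.piecewise_eq_of_mem _ _ _ ht]
  · rw [Finset.piecewise_eq_of_notMem _ _ _ ht]
    by_cases ht' : t ∈ W'
    · rw [Finset.piecewise_eq_of_mem _ _ _ ht', Finset.piecewise_eq_of_mem _ _ _ ht']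
    · rw [Finset.piecewise_eq_of_notMem _ _ _ ht', Finset.piecewise_eq_of_notMem _ _ _ ht',
        Finset.piecewise_eq_of_notMem _ _ _ ht]

lemma mg_ins {W : Finset ι} {B : ι → Col J} {j : J} (φ : Md ι J E) :
    mg k j (ins k W B φ) = ins k W (fun x => mc j (B x)) (mg k j φ) := by
  show pf k _ (pf k _ φ) = pf k _ (pf k _ φ)
  rw [pf_pf, pf_pf]
  refine pf_congr fun χ _ => ?_
  funext t
  simp only [Function.comp]
  by_cases ht : t ∈ W
  · rw [Finset.piecewise_eq_of_mem _ _ _ ht, Finset.piecewise_eq_of_mem _ _ _ ht]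
  · rw [Finset.piecewise_eq_of_notMem _ _ _ ht, Finset.piecewise_eq_of_notMem _ _ _ ht]
    rfl

/-! ### types under swaps -/

lemma num_comp (π : Perm ι) (χ : ι → Col J) (c : Col J) : num (χ ∘ ⇑π) c = num χ c := by
  unfold num
  refine Finset.card_bij (fun t _ => π t) ?_ ?_ ?_
  · intro t ht
    rw [Finset.mem_filter] at ht ⊢
    exact ⟨Finset.mem_univ _, ht.2⟩
  · intro a _ b _ h
    exact π.injective h
  · intro b hb
    rw [Finset.mem_filter] at hb
    refine ⟨π.symm b, ?_, by simp⟩
    rw [Finset.mem_filter]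
    exact ⟨Finset.mem_univ _, by simpa using hb.2⟩

lemma swap_mem {X : Finset ι} {x y : ι} (hx : x ∈ X) (hy : y ∈ X) (t : ι) :
    swap x y t ∈ X ↔ t ∈ X := by
  by_cases h2 : t = x
  · subst h2; rw [swap_apply_left]; exact ⟨fun _ => hx, fun _ => hy⟩
  · by_cases h3 : t = y
    · subst h3; rw [swap_apply_right]; exact ⟨fun _ => hy, fun _ => hx⟩
    · rw [swap_apply_of_ne_of_ne h2 h3]

lemma Typ.swap {d : J → ℕ} {A : Finset J} {X : Finset ι} {χ : ι → Col J} (h : Typ d A X χ)
    {x y : ι} (hx : x ∈ X) (hy : y ∈ X) : Typ d A X (χ ∘ ⇑(swap x y)) := by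
  refine ⟨fun t => ?_, fun j => by rw [num_comp]; exact h.2 j⟩
  show χ (Equiv.swap x y t) ≠ .out ↔ t ∈ X
  rw [h.1, swap_mem hx hy]

lemma act_Ga {d : J → ℕ} {A : Finset J} {X : Finset ι} {φ : Md ι J E} (h : φ ∈ Ga k d A X)
    {x y : ι} (hx : x ∈ X) (hy : y ∈ X) : act k (swap x y) φ ∈ Ga k d A X := by
  refine ⟨act_supp (fun χ hχ => hχ.swap hx hy) h.1, fun j hj => ?_⟩
  rw [mg_act, h.2 j hj, map_zero]

/-! ### antisymmetric elements -/

lemma An.inj {Z : Finset ι} {φ : Md ι J E} (h : An (act k) Z φ) {χ : ι → Col J}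
    (hχ : χ ∈ φ.support) : Set.InjOn χ (Z : Set ι) := by
  intro x hx y hy hxy
  by_contra hne
  have h1 := h x hx y hy hne
  have h2 := DFunLike.congr_fun h1 χ
  rw [act_swap_apply, Finsupp.neg_apply] at h2
  have h3 : χ ∘ ⇑(swap x y) = χ := by
    funext t
    simp only [Function.comp]
    by_cases ht : t = x
    · subst ht; rw [swap_apply_left, hxy]
    · by_cases ht' : t = y
      · subst ht'; rw [swap_apply_right, hxy]
      · rw [swap_apply_of_ne_of_ne ht ht']
  rw [h3] at h2
  have h4 : (2 : k) • φ χ = 0 := by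
    rw [two_smul]
    nth_rewrite 1 [h2]
    exact neg_add_cancel _
  have h5 : φ χ = 0 := (smul_eq_zero.mp h4).resolve_left two_ne_zero
  exact (Finsupp.mem_support_iff.mp hχ) h5

lemma An.eq_zero {Z : Finset ι} {φ : Md ι J E} (h : An (act k) Z φ)
    (h2 : ∀ χ ∈ φ.support, ∃ x ∈ Z, ∃ y ∈ Z, x ≠ y ∧ χ x = χ y) : φ = 0 := by
  by_contra hne
  obtain ⟨χ, hχ⟩ := Finsupp.support_nonempty_iff.mpr hne
  obtain ⟨x, hx, y, hy, hxy, e⟩ := h2 χ hχ
  exact hxy (h.inj hχ hx hy e)

end Pool.Agent.H43.OPC
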