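import Pool.Agent.H43.OPC.LemS

set_option autoImplicit false
set_option linter.unusedSectionVars false

/-!
# Colourings: definitions

`Col J` : colours (`out`, the coefficient colour `co`, the slots `sl j`).
`Md ι J E = (ι → Col J) →₀ E` : formal sums of colourings of the points `ι`.
Everything is a push forward `pf f`.
-/

open Equiv

namespace Pool.Agent.H43.OPC

inductive Col (J : Type*) where
  | out : Col J
  | co : Col J
  | sl : J → Col J
deriving DecidableEq

variable {k : Type*} [Field k]
variable {ι : Type*} [Fintype ι] [DecidableEq ι] {J : Type*} [Fintype J] [DecidableEq J]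
variable {E : Type*} [AddCommGroup E] [Module k E]

/-- formal sums of colourings -/
abbrev Md (ι J E : Type*) [AddCommGroup E] := (ι → Col J) →₀ E

section pf

variable {α β γ : Type*}

/-- push forward -/
noncomputable def pf (k : Type*) [Field k] {E : Type*} [AddCommGroup E] [Module k E]
    {α β : Type*} (f : α → β) : (α →₀ E) →ₗ[k] (β →₀ E) :=
  Finsupp.lmapDomain E k f

lemma pf_apply (f : α → β) (φ : α →₀ E) : pf k f φ = Finsupp.mapDomain f φ := rfl

lemma pf_single (f : α → β) (a : α) (e : E) :
    pf k f (Finsupp.single a e) = Finsupp.single (f a) e := by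
  rw [pf_apply, Finsupp.mapDomain_single]

lemma pf_pf (f : α → β) (g : β → γ) (φ : α →₀ E) :
    pf k g (pf k f φ) = pf k (fun x => g (f x)) φ := by
  rw [pf_apply, pf_apply, pf_apply, ← Finsupp.mapDomain_comp]; rfl

lemma pf_congr {f g : α → β} {φ : α →₀ E} (h : ∀ a ∈ φ.support, f a = g a) :
    pf k f φ = pf k g φ := by
  rw [pf_apply, pf_apply]; exact Finsupp.mapDomain_congr h

lemma pf_id' {f : α → α} {φ : α →₀ E} (h : ∀ a ∈ φ.support, f a = a) : pf k f φ = φ := by
  rw [pf_congr (g := id) h, pf_apply, Finsupp.mapDomain_id]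

lemma pf_supp [DecidableEq β] {f : α → β} {φ : α →₀ E} {b : β} (h : b ∈ (pf k f φ).support) :
    ∃ a ∈ φ.support, f a = b := by
  classical
  have h1 := Finsupp.mapDomain_support (f := f) (s := φ) (by rwa [pf_apply] at h)
  exact Finset.mem_image.mp h1

/-- filtering and push forward -/
lemma pf_filter {f : α → β} {φ : α →₀ E} {p : α → Prop} {q : β → Prop} [DecidablePred p]
    [DecidablePred q] (h : ∀ a ∈ φ.support, (p a ↔ q (f a))) :
    pf k f (φ.filter p) = (pf k f φ).filter q := by
  classical
  have key : ∀ s : Finset α, s ⊆ φ.support →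
      pf k f ((∑ a ∈ s, Finsupp.single a (φ a)).filter p)
        = (pf k f (∑ a ∈ s, Finsupp.single a (φ a))).filter q := by
    intro s
    induction s using Finset.induction_on with
    | empty => intro _; rw [Finset.sum_empty, Finsupp.filter_zero, map_zero, Finsupp.filter_zero]
    | insert a s ha ih =>
      intro hs
      have h1 := h a (hs (Finset.mem_insert_self _ _))
      rw [Finset.sum_insert ha, Finsupp.filter_add, map_add, map_add, Finsupp.filter_add,
        ih (fun b hb => hs (Finset.mem_insert_of_mem hb)), pf_single]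
      congr 1
      by_cases hp : p a
      · rw [Finsupp.filter_single_of_pos _ hp, Finsupp.filter_single_of_pos _ (h1.mp hp), pf_single]
      · rw [Finsupp.filter_single_of_neg _ hp, Finsupp.filter_single_of_neg _ (fun e => hp (h1.mpr e)),
          map_zero]
  have h2 := key φ.support (Finset.Subset.refl _)
  have h3 : ∑ a ∈ φ.support, Finsupp.single a (φ a) = φ := Finsupp.sum_single φ
  rwa [h3] at h2

lemma filter_supp {φ : α →₀ E} {p : α → Prop} [DecidablePred p] {a : α}
    (h : a ∈ (φ.filter p).support) : a ∈ φ.support ∧ p a := by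
  rw [Finsupp.support_filter, Finset.mem_filter] at h
  exact h

/-- decomposition along a map -/
lemma sum_filter_map [DecidableEq β] (f : α → β) (φ : α →₀ E) :
    φ = ∑ b ∈ φ.support.image f, φ.filter (fun a => f a = b) := by
  classical
  ext a
  rw [Finsupp.finsetSum_apply]
  by_cases ha : a ∈ φ.support
  · rw [Finset.sum_eq_single (f a)]
    · rw [Finsupp.filter_apply, if_pos rfl]
    · intro b _ hb
      rw [Finsupp.filter_apply, if_neg]
      exact fun e => hb e.symm
    · intro h
      exact absurd (Finset.mem_image_of_mem f ha) h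
  · have h0 : φ a = 0 := Finsupp.notMem_support_iff.mp ha
    rw [h0]
    symm
    refine Finset.sum_eq_zero fun b _ => ?_
    rw [Finsupp.filter_apply, h0, ite_self]

end pf

/-- the action of permutations of the points -/
noncomputable def act (k : Type*) [Field k] {ι J E : Type*} [AddCommGroup E] [Module k E] :
    Perm ι →* Module.End k (Md ι J E) where
  toFun π := pf k fun χ => χ ∘ ⇑π⁻¹
  map_one' := by
    refine LinearMap.ext fun φ => ?_
    exact pf_id' fun χ _ => rfl
  map_mul' π σ := by
    refine LinearMap.ext fun φ => ?_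
    show pf k _ φ = pf k _ (pf k _ φ)
    rw [pf_pf, mul_inv_rev]
    rfl

lemma act_swap (x y : ι) (φ : Md ι J E) :
    act k (swap x y) φ = pf k (fun χ => χ ∘ ⇑(swap x y)) φ := by
  show pf k (fun χ => χ ∘ ⇑(swap x y)⁻¹) φ = _
  rw [swap_inv]

lemma act_swap_apply (x y : ι) (φ : Md ι J E) (χ : ι → Col J) :
    act k (swap x y) φ χ = φ (χ ∘ ⇑(swap x y)) := by
  rw [act_swap, pf_apply]
  have h1 : Function.Injective (fun χ : ι → Col J => χ ∘ ⇑(swap x y)) := by
    intro a b h
    have h2 := congrArg (fun c => c ∘ ⇑(swap x y)) h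
    funext t
    have h3 := congrFun h2 t
    simpa using h3
  have h4 : χ = (fun χ : ι → Col J => χ ∘ ⇑(swap x y)) (χ ∘ ⇑(swap x y)) := by
    funext t
    simp
  conv_lhs => rw [h4]
  exact Finsupp.mapDomain_apply h1 _ _

/-- merging the colour `j` into the coefficient colour -/
def mc (j : J) : Col J → Col J
  | .out => .out
  | .co => .co
  | .sl l => if l = j then .co else .sl l

/-- merge the slot `j` into the coefficient -/
noncomputable def mg (k : Type*) [Field k] {ι J E : Type*} [DecidableEq J] [AddCommGroup E]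
    [Module k E] (j : J) : Md ι J E →ₗ[k] Md ι J E := pf k fun χ => mc j ∘ χ

/-- insert the colouring `B` on `W` -/
noncomputable def ins (k : Type*) [Field k] {ι J E : Type*} [DecidableEq ι] [AddCommGroup E]
    [Module k E] (W : Finset ι) (B : ι → Col J) : Md ι J E →ₗ[k] Md ι J E :=
  pf k fun χ => W.piecewise B χ

/-- number of points of the colour `c` -/
def num (χ : ι → Col J) (c : Col J) : ℕ := (Finset.univ.filter fun x => χ x = c).card

/-- the type of a colouring -/
def Typ (d : J → ℕ) (A : Finset J) (X : Finset ι) (χ : ι → Col J) : Prop :=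
  (∀ x, χ x ≠ .out ↔ x ∈ X) ∧ ∀ j, num χ (.sl j) = if j ∈ A then d j else 0

/-- the closed formal sums -/
noncomputable def Ga (k : Type*) [Field k] {ι J E : Type*} [Fintype ι] [DecidableEq ι]
    [DecidableEq J] [AddCommGroup E] [Module k E]
    (d : J → ℕ) (A : Finset J) (X : Finset ι) : Submodule k (Md ι J E) where
  carrier := {φ | (∀ χ ∈ φ.support, Typ d A X χ) ∧ ∀ j ∈ A, mg k j φ = 0}
  add_mem' := by
    rintro φ ψ ⟨h1, h2⟩ ⟨g1, g2⟩
    classical
    refine ⟨fun χ hχ => ?_, fun j hj => by rw [map_add, h2 j hj, g2 j hj, add_zero]⟩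
    rcases Finset.mem_union.mp (Finsupp.support_add hχ) with h | h
    · exact h1 χ h
    · exact g1 χ h
  zero_mem' := ⟨fun χ hχ => by simp at hχ, fun j _ => map_zero _⟩
  smul_mem' := by
    rintro c φ ⟨h1, h2⟩
    exact ⟨fun χ hχ => h1 χ (Finsupp.support_smul hχ),
      fun j hj => by rw [map_smul, h2 j hj, smul_zero]⟩

lemma mem_Ga {d : J → ℕ} {A : Finset J} {X : Finset ι} {φ : Md ι J E} :
    φ ∈ Ga k d A X ↔ (∀ χ ∈ φ.support, Typ d A X χ) ∧ ∀ j ∈ A, mg k j φ = 0 := Iff.rfl

/-- `P_e Γ` -/
noncomputable def PG (k : Type*) [Field k] {ι J E : Type*} [Fintype ι] [DecidableEq ι]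
    [DecidableEq J] [AddCommGroup E] [Module k E] (d : J → ℕ) :
    ℕ → Finset J → Finset ι → Submodule k (Md ι J E)
  | 0, A, X => Ga k d A X
  | e + 1, A, X => ⨆ u ∈ X, (PG k d e A (X.erase u)).map (ins k {u} fun _ => Col.co)

/-- the antisymmetriser along a list -/
noncomputable def asym (k : Type*) [Field k] {ι J E : Type*} [DecidableEq ι] [AddCommGroup E]
    [Module k E] : List ι → Module.End k (Md ι J E)
  | [] => 1
  | z :: L => (1 - (L.map fun z' => act k (swap z' z)).sum) * asym k L

end Pool.Agent.H43.OPC
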