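import Pool.Agent.H43.OPC.Row

set_option autoImplicit false
set_option linter.unusedSectionVars false

/-!
# Decomposition of an antisymmetric element along the slots of the points of `Z`
-/

open Equiv

namespace Pool.Agent.H43.OPC

variable {k : Type*} [Field k] [CharZero k]
variable {ι : Type*} [Fintype ι] [DecidableEq ι] {J : Type*} [Fintype J] [DecidableEq J]
variable {E : Type*} [AddCommGroup E] [Module k E]

/-- `Z` and the points which are in the same slot as a point of `Z` -/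
def ws {ι J : Type*} [Fintype ι] [DecidableEq ι] [DecidableEq J] (Z : Finset ι)
    (χ : ι → Col J) : Finset ι :=
  Finset.univ.filter fun x => x ∈ Z ∨ ∃ z ∈ Z, χ z = χ x ∧ χ x ≠ .out ∧ χ x ≠ .co

/-- restriction of the colouring to `ws` -/
def bt {ι J : Type*} [Fintype ι] [DecidableEq ι] [DecidableEq J] (Z : Finset ι)
    (χ : ι → Col J) : ι → Col J :=
  (ws Z χ).piecewise χ fun _ => .out

lemma mem_ws {Z : Finset ι} {χ : ι → Col J} {x : ι} :
    x ∈ ws Z χ ↔ (x ∈ Z ∨ ∃ z ∈ Z, ∃ j, χ z = .sl j ∧ χ x = .sl j) := by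
  unfold ws
  rw [Finset.mem_filter]
  constructor
  · rintro ⟨_, h | ⟨z, hz, h1, h2, h3⟩⟩
    · exact Or.inl h
    · refine Or.inr ⟨z, hz, ?_⟩
      rcases hc : χ x with _ | _ | j
      · exact absurd hc h2
      · exact absurd hc h3
      · exact ⟨j, by rw [h1, hc], rfl⟩
  · rintro (h | ⟨z, hz, j, h1, h2⟩)
    · exact ⟨Finset.mem_univ _, Or.inl h⟩
    · refine ⟨Finset.mem_univ _, Or.inr ⟨z, hz, by rw [h1, h2], ?_, ?_⟩⟩
      · rw [h2]; exact fun e => nomatch e
      · rw [h2]; exact fun e => nomatch e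

lemma sub_ws (Z : Finset ι) (χ : ι → Col J) : Z ⊆ ws Z χ := fun _ hx => mem_ws.mpr (Or.inl hx)

lemma bt_of_mem {Z : Finset ι} {χ : ι → Col J} {x : ι} (h : x ∈ ws Z χ) : bt Z χ x = χ x :=
  Finset.piecewise_eq_of_mem _ _ _ h

lemma bt_of_notMem {Z : Finset ι} {χ : ι → Col J} {x : ι} (h : x ∉ ws Z χ) :
    bt Z χ x = .out := Finset.piecewise_eq_of_notMem _ _ _ h

lemma ws_bt (Z : Finset ι) (χ : ι → Col J) : ws Z (bt Z χ) = ws Z χ := by
  ext x
  rw [mem_ws]
  constructor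
  · rintro (h | ⟨z, hz, j, h1, h2⟩)
    · exact sub_ws Z χ h
    · by_contra hx
      rw [bt_of_notMem hx] at h2
      exact nomatch h2
  · intro h
    rcases mem_ws.mp h with h1 | ⟨z, hz, j, h1, h2⟩
    · exact Or.inl h1
    · exact Or.inr ⟨z, hz, j, by rw [bt_of_mem (sub_ws Z χ hz)]; exact h1,
        by rw [bt_of_mem h]; exact h2⟩

lemma mc_of_ne {j : J} {c : Col J} (h : c ≠ .sl j) : mc j c = c := by
  rcases c with _ | _ | l
  · rfl
  · rfl
  · show (if l = j then Col.co else .sl l) = .sl l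
    rw [if_neg]
    rintro rfl
    exact h rfl

lemma mc_self (j : J) : mc j (.sl j) = .co := by
  show (if j = j then Col.co else .sl j) = .co
  rw [if_pos rfl]

lemma mc_eq_sl {j l : J} {c : Col J} (h : mc j c = .sl l) : c = .sl l ∧ l ≠ j := by
  by_cases hc : c = .sl j
  · subst hc
    rw [mc_self] at h
    exact nomatch h
  · rw [mc_of_ne hc] at h
    refine ⟨h, ?_⟩
    rintro rfl
    exact hc h

lemma bt_mc {Z : Finset ι} {χ : ι → Col J} {j : J} (h : ∀ z ∈ Z, χ z ≠ .sl j) :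
    bt Z (mc j ∘ χ) = bt Z χ := by
  have h1 : ws Z (mc j ∘ χ) = ws Z χ := by
    ext x
    rw [mem_ws, mem_ws]
    constructor
    · rintro (hx | ⟨z, hz, l, h1, h2⟩)
      · exact Or.inl hx
      · exact Or.inr ⟨z, hz, l, (mc_eq_sl h1).1, (mc_eq_sl h2).1⟩
    · rintro (hx | ⟨z, hz, l, h1, h2⟩)
      · exact Or.inl hx
      · have hl : (Col.sl l : Col J) ≠ .sl j := by rw [← h1]; exact h z hz
        exact Or.inr ⟨z, hz, l, by simp only [Function.comp, h1, mc_of_ne hl],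
          by simp only [Function.comp, h2, mc_of_ne hl]⟩
  funext x
  unfold bt
  rw [h1]
  by_cases hx : x ∈ ws Z χ
  · rw [Finset.piecewise_eq_of_mem _ _ _ hx, Finset.piecewise_eq_of_mem _ _ _ hx]
    refine mc_of_ne ?_
    rcases mem_ws.mp hx with hx | ⟨z, hz, l, h2, h3⟩
    · exact h x hx
    · rw [h3, ← h2]; exact h z hz
  · rw [Finset.piecewise_eq_of_notMem _ _ _ hx, Finset.piecewise_eq_of_notMem _ _ _ hx]

/-- the filter along `bt` commutes with merging -/
lemma bt_iff {Z : Finset ι} {χ0 χ : ι → Col J} {j : J} (h0 : Set.InjOn χ0 (Z : Set ι))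
    (hj : ∀ z ∈ Z, χ0 z ≠ .sl j)
    (hc : (∀ z ∈ Z, χ0 z ≠ .co) ∨ ∃ z ∈ Z, χ z = .co) :
    bt Z χ = bt Z χ0 ↔ bt Z (mc j ∘ χ) = bt Z χ0 := by
  have hval : ∀ χ' : ι → Col J, ∀ z ∈ Z, bt Z χ' z = χ' z := fun χ' z hz =>
    bt_of_mem (sub_ws Z χ' hz)
  constructor
  · intro h
    rw [bt_mc, h]
    intro z hz
    rw [← hval χ z hz, h, hval χ0 z hz]
    exact hj z hz
  · intro h
    have h1 : ∀ z ∈ Z, mc j (χ z) = χ0 z := by
      intro z hz
      rw [← hval χ0 z hz, ← h, hval _ z hz]; rfl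
    rw [← h, bt_mc]
    intro z hz e
    have h2 : χ0 z = .co := by rw [← h1 z hz, e, mc_self]
    rcases hc with hc | ⟨z0, hz0, e0⟩
    · exact hc z hz h2
    · have h3 : χ0 z0 = .co := by rw [← h1 z0 hz0, e0]; rfl
      have h4 := h0 hz hz0 (h2.trans h3.symm)
      subst h4
      rw [e] at e0
      exact nomatch e0

/-- the part of `φ` above `B` -/
noncomputable def zt (k : Type*) [Field k] {ι J E : Type*} [Fintype ι] [DecidableEq ι]
    [DecidableEq J] [AddCommGroup E] [Module k E] (Z : Finset ι) (B : ι → Col J)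
    (φ : Md ι J E) : Md ι J E :=
  pf k (fun χ => (ws Z B).piecewise (fun _ => .out) χ) (φ.filter fun χ => bt Z χ = B)

lemma ins_zt {Z : Finset ι} {χ0 : ι → Col J} (φ : Md ι J E) :
    ins k (ws Z χ0) (bt Z χ0) (zt k Z (bt Z χ0) φ)
      = φ.filter fun χ => bt Z χ = bt Z χ0 := by
  unfold zt
  rw [ws_bt]
  unfold ins
  rw [pf_pf]
  refine pf_id' fun χ hχ => ?_
  obtain ⟨_, h⟩ := filter_supp hχ
  have hW : ws Z χ = ws Z χ0 := by rw [← ws_bt Z χ, h, ws_bt]
  funext x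
  by_cases hx : x ∈ ws Z χ0
  · rw [Finset.piecewise_eq_of_mem _ _ _ hx, ← h, bt_of_mem (by rw [hW]; exact hx)]
  · rw [Finset.piecewise_eq_of_notMem _ _ _ hx, Finset.piecewise_eq_of_notMem _ _ _ hx]

/-- the slots of the points of `Z` -/
def js {ι J : Type*} [DecidableEq J] (A : Finset J) (Z : Finset ι) (χ : ι → Col J) :
    Finset J :=
  A.filter fun j => ∃ z ∈ Z, χ z = .sl j

lemma mem_js {A : Finset J} {Z : Finset ι} {χ : ι → Col J} {j : J} :
    j ∈ js A Z χ ↔ j ∈ A ∧ ∃ z ∈ Z, χ z = .sl j := by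
  unfold js
  rw [Finset.mem_filter]

lemma js_sub (A : Finset J) (Z : Finset ι) (χ : ι → Col J) : js A Z χ ⊆ A := fun _ hj =>
  (mem_js.mp hj).1

lemma ws_sub {d : J → ℕ} {A : Finset J} {X Z : Finset ι} {χ : ι → Col J} (h : Typ d A X χ)
    (hZ : Z ⊆ X) : ws Z χ ⊆ X := by
  intro x hx
  rcases mem_ws.mp hx with h1 | ⟨z, _, j, _, h2⟩
  · exact hZ h1
  · rw [← h.1, h2]; exact fun e => nomatch e

lemma typ_bt {d : J → ℕ} {A : Finset J} {X Z : Finset ι} {χ : ι → Col J} (h : Typ d A X χ)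
    (hZ : Z ⊆ X) : Typ d (js A Z χ) (ws Z χ) (bt Z χ) := by
  classical
  refine ⟨fun x => ?_, fun j => ?_⟩
  · by_cases hx : x ∈ ws Z χ
    · rw [bt_of_mem hx, h.1]
      exact ⟨fun _ => hx, fun _ => ws_sub h hZ hx⟩
    · rw [bt_of_notMem hx]
      exact ⟨fun e => absurd rfl e, fun e => absurd e hx⟩
  · by_cases hj : j ∈ js A Z χ
    · rw [if_pos hj]
      obtain ⟨hjA, z, hz, e⟩ := mem_js.mp hj
      have h1 := h.2 j
      rw [if_pos hjA] at h1
      rw [← h1]
      unfold num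
      congr 1
      ext x
      rw [Finset.mem_filter, Finset.mem_filter]
      constructor
      · rintro ⟨_, h2⟩
        refine ⟨Finset.mem_univ _, ?_⟩
        by_cases hx : x ∈ ws Z χ
        · rwa [bt_of_mem hx] at h2
        · rw [bt_of_notMem hx] at h2; exact nomatch h2
      · rintro ⟨_, h2⟩
        refine ⟨Finset.mem_univ _, ?_⟩
        rw [bt_of_mem (mem_ws.mpr (Or.inr ⟨z, hz, j, e, h2⟩))]
        exact h2
    · rw [if_neg hj]
      unfold num
      rw [Finset.card_eq_zero, Finset.filter_eq_empty_iff]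
      intro x _ h2
      by_cases hx : x ∈ ws Z χ
      · rw [bt_of_mem hx] at h2
        refine hj (mem_js.mpr ⟨h.slot h2, ?_⟩)
        rcases mem_ws.mp hx with h3 | ⟨z, hz, l, h3, h4⟩
        · exact ⟨x, h3, h2⟩
        · rw [h2] at h4
          exact ⟨z, hz, by rw [h3, h4]⟩
      · rw [bt_of_notMem hx] at h2; exact nomatch h2

lemma num_bt_co {Z : Finset ι} {χ : ι → Col J} :
    num (bt Z χ) .co = (Z.filter fun x => χ x = .co).card := by
  unfold num
  congr 1
  ext x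
  rw [Finset.mem_filter, Finset.mem_filter]
  constructor
  · rintro ⟨_, h2⟩
    by_cases hx : x ∈ ws Z χ
    · rw [bt_of_mem hx] at h2
      rcases mem_ws.mp hx with h3 | ⟨z, hz, l, h3, h4⟩
      · exact ⟨h3, h2⟩
      · rw [h2] at h4; exact nomatch h4
    · rw [bt_of_notMem hx] at h2; exact nomatch h2
  · rintro ⟨h1, h2⟩
    exact ⟨Finset.mem_univ _, by rw [bt_of_mem (sub_ws Z χ h1)]; exact h2⟩

lemma row1_bt {d : J → ℕ} {A : Finset J} {X Z : Finset ι} {χ : ι → Col J} (h : Typ d A X χ)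
    (hZ : Z ⊆ X) (hi : Set.InjOn χ (Z : Set ι)) (hc : ∃ z ∈ Z, χ z = .co) :
    Row1 d Z (ws Z χ) (js A Z χ) (bt Z χ) := by
  refine ⟨typ_bt h hZ, sub_ws Z χ, ?_, ?_, ?_, ?_⟩
  · intro x hx y hy e
    rw [bt_of_mem (sub_ws Z χ hx), bt_of_mem (sub_ws Z χ hy)] at e
    exact hi hx hy e
  · rw [num_bt_co, Finset.card_eq_one]
    obtain ⟨z, hz, e⟩ := hc
    refine ⟨z, ?_⟩
    ext x
    rw [Finset.mem_filter, Finset.mem_singleton]
    constructor
    · rintro ⟨h1, h2⟩; exact hi h1 hz (h2.trans e.symm)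
    · rintro rfl; exact ⟨hz, e⟩
  · obtain ⟨z, hz, e⟩ := hc
    exact ⟨z, hz, by rw [bt_of_mem (sub_ws Z χ hz)]; exact e⟩
  · intro j hj
    obtain ⟨_, z, hz, e⟩ := mem_js.mp hj
    exact ⟨z, hz, by rw [bt_of_mem (sub_ws Z χ hz)]; exact e⟩

lemma row0_bt {d : J → ℕ} {A : Finset J} {X Z : Finset ι} {χ : ι → Col J} (h : Typ d A X χ)
    (hZ : Z ⊆ X) (hi : Set.InjOn χ (Z : Set ι)) (hc : ∀ z ∈ Z, χ z ≠ .co) :
    Row0 d Z (ws Z χ) (js A Z χ) (bt Z χ) := by
  refine ⟨typ_bt h hZ, sub_ws Z χ, ?_, ?_, ?_⟩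
  · intro x hx y hy e
    rw [bt_of_mem (sub_ws Z χ hx), bt_of_mem (sub_ws Z χ hy)] at e
    exact hi hx hy e
  · rw [num_bt_co, Finset.card_eq_zero, Finset.filter_eq_empty_iff]
    exact fun x hx => hc x hx
  · intro j hj
    obtain ⟨_, z, hz, e⟩ := mem_js.mp hj
    exact ⟨z, hz, by rw [bt_of_mem (sub_ws Z χ hz)]; exact e⟩

/-- the part above `B` is closed in the other slots -/
lemma zt_mem {d : J → ℕ} {A : Finset J} {X Z : Finset ι} {φ : Md ι J E} {χ0 : ι → Col J}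
    (hφ : ∀ χ ∈ φ.support, Typ d A X χ) (h0 : Typ d A X χ0) (hi : Set.InjOn χ0 (Z : Set ι))
    (hZ : Z ⊆ X)
    (hcl : ∀ j ∈ A, mg k j φ = 0)
    (hc : (∀ z ∈ Z, χ0 z ≠ .co) ∨ ∀ χ ∈ φ.support, ∃ z ∈ Z, χ z = .co) :
    zt k Z (bt Z χ0) φ ∈ Ga k d (A \ js A Z χ0) (X \ ws Z χ0) := by
  refine ⟨fun χ hχ => ?_, fun j hj => ?_⟩
  · unfold zt at hχ
    obtain ⟨χ', hχ', rfl⟩ := pf_supp hχ
    obtain ⟨h1, h2⟩ := filter_supp hχ'
    have hT := hφ χ' h1
    have hW : ws Z χ' = ws Z χ0 := by rw [← ws_bt Z χ', h2, ws_bt]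
    have hval : ∀ x ∈ ws Z χ0, χ' x = bt Z χ0 x := by
      intro x hx
      rw [← h2, bt_of_mem (by rw [hW]; exact hx)]
    rw [ws_bt]
    refine ⟨fun x => ?_, fun j => ?_⟩
    · by_cases hx : x ∈ ws Z χ0
      · rw [Finset.piecewise_eq_of_mem _ _ _ hx]
        exact ⟨fun e => absurd rfl e, fun e => absurd hx (Finset.mem_sdiff.mp e).2⟩
      · rw [Finset.piecewise_eq_of_notMem _ _ _ hx, hT.1, Finset.mem_sdiff]
        exact ⟨fun h => ⟨h, hx⟩, fun h => h.1⟩
    · -- the colours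
      have hb := typ_bt h0 hZ
      have e1 : num χ' (.sl j) = num (bt Z χ0) (.sl j)
          + num ((ws Z χ0).piecewise (fun _ => Col.out) χ') (.sl j) := by
        have hc' : (Col.sl j : Col J) ≠ .out := fun e => nomatch e
        have h5 := num_piecewise (W := ws Z χ0) (B := bt Z χ0)
          (χ := (ws Z χ0).piecewise (fun _ => Col.out) χ') (fun x hx => bt_of_notMem hx)
          (fun x hx => Finset.piecewise_eq_of_mem _ _ _ hx) hc'
        rw [← h5]
        congr 1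
        funext x
        by_cases hx : x ∈ ws Z χ0
        · rw [Finset.piecewise_eq_of_mem _ _ _ hx, hval x hx]
        · rw [Finset.piecewise_eq_of_notMem _ _ _ hx, Finset.piecewise_eq_of_notMem _ _ _ hx]
      rw [hT.2, hb.2] at e1
      by_cases h1 : j ∈ js A Z χ0
      · rw [if_pos h1, if_pos (js_sub _ _ _ h1)] at e1
        rw [if_neg (fun h => (Finset.mem_sdiff.mp h).2 h1)]
        omega
      · rw [if_neg h1] at e1
        by_cases h2 : j ∈ A
        · rw [if_pos h2] at e1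
          rw [if_pos (Finset.mem_sdiff.mpr ⟨h2, h1⟩)]
          omega
        · rw [if_neg h2] at e1
          rw [if_neg (fun h => h2 (Finset.mem_sdiff.mp h).1)]
          omega
  · obtain ⟨hjA, hjB⟩ := Finset.mem_sdiff.mp hj
    have hj0 : ∀ z ∈ Z, χ0 z ≠ .sl j := fun z hz e => hjB (mem_js.mpr ⟨hjA, z, hz, e⟩)
    have h1 : mg k j (φ.filter fun χ => bt Z χ = bt Z χ0) = 0 := by
      unfold mg
      rw [pf_filter (q := fun χ => bt Z χ = bt Z χ0)]
      · have h2 := hcl j hjA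
        unfold mg at h2
        rw [h2, Finsupp.filter_zero]
      · intro χ hχ
        refine bt_iff hi hj0 ?_
        rcases hc with hc | hc
        · exact Or.inl hc
        · exact Or.inr (hc χ hχ)
    unfold zt
    have h2 : mg k j (pf k (fun χ => (ws Z (bt Z χ0)).piecewise (fun _ => Col.out) χ)
        (φ.filter fun χ => bt Z χ = bt Z χ0))
        = pf k (fun χ => (ws Z (bt Z χ0)).piecewise (fun _ => Col.out) χ)
        (mg k j (φ.filter fun χ => bt Z χ = bt Z χ0)) := by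
      unfold mg
      rw [pf_pf, pf_pf]
      refine pf_congr fun χ _ => ?_
      funext x
      by_cases hx : x ∈ ws Z (bt Z χ0)
      · simp only [Function.comp]
        rw [Finset.piecewise_eq_of_mem _ _ _ hx, Finset.piecewise_eq_of_mem _ _ _ hx]
        rfl
      · simp only [Function.comp]
        rw [Finset.piecewise_eq_of_notMem _ _ _ hx, Finset.piecewise_eq_of_notMem _ _ _ hx]
        rfl
    rw [h2, h1, map_zero]

end Pool.Agent.H43.OPC
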