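import Pool.Agent.H43.OPC.RR

set_option autoImplicit false
set_option linter.unusedSectionVars false

/-!
# Generation: `Γ(A, X) = P_e Γ(A, X)` if `#A + e ≤ m`
-/

open Equiv

namespace Pool.Agent.H43.OPC

variable {k : Type*} [Field k] [CharZero k]
variable {ι : Type*} [Fintype ι] [DecidableEq ι] {J : Type*} [Fintype J] [DecidableEq J]
variable {E : Type*} [AddCommGroup E] [Module k E]

lemma row1_card {d : J → ℕ} {Z W : Finset ι} {JB : Finset J} {B : ι → Col J}
    (h : Row1 d Z W JB B) : Z.card = JB.card + 1 := by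
  classical
  have h1 : Z.image B = insert Col.co (JB.image Col.sl) := by
    ext c
    rw [Finset.mem_image, Finset.mem_insert, Finset.mem_image]
    constructor
    · rintro ⟨z, hz, rfl⟩
      rcases hc : B z with _ | _ | j
      · exact absurd hc ((h.typ.1 z).mpr (h.sub hz))
      · exact Or.inl rfl
      · exact Or.inr ⟨j, h.typ.slot hc, rfl⟩
    · rintro (rfl | ⟨j, hj, rfl⟩)
      · exact h.ex
      · exact h.hit j hj
  have h2 : (Z.image B).card = Z.card := Finset.card_image_of_injOn h.inj
  rw [← h2, h1, Finset.card_insert_of_notMem, Finset.card_image_of_injective]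
  · intro a b e; injection e
  · rw [Finset.mem_image]
    rintro ⟨j, _, e⟩
    exact nomatch e

lemma row0_card {d : J → ℕ} {Z W : Finset ι} {JB : Finset J} {B : ι → Col J}
    (h : Row0 d Z W JB B) : Z.card = JB.card := by
  classical
  have h1 : Z.image B = JB.image Col.sl := by
    ext c
    rw [Finset.mem_image, Finset.mem_image]
    constructor
    · rintro ⟨z, hz, rfl⟩
      rcases hc : B z with _ | _ | j
      · exact absurd hc ((h.typ.1 z).mpr (h.sub hz))
      · exfalso
        have h1 := h.zero
        unfold num at h1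
        rw [Finset.card_eq_zero, Finset.filter_eq_empty_iff] at h1
        exact h1 (Finset.mem_univ z) hc
      · exact ⟨j, h.typ.slot hc, rfl⟩
    · rintro ⟨j, hj, rfl⟩
      exact h.hit j hj
  have h2 : (Z.image B).card = Z.card := Finset.card_image_of_injOn h.inj
  rw [← h2, h1, Finset.card_image_of_injective]
  intro a b e; injection e

lemma card_rest {d : J → ℕ} {A JB : Finset J} {X W : Finset ι} {B : ι → Col J} {m c : ℕ}
    (hT : Typ d JB W B) (hc : num B .co = c) (hJ : JB ⊆ A) (hW : W ⊆ X)
    (hX : X.card = ∑ j ∈ A, d j + (m + c)) :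
    (X \ W).card = ∑ j ∈ A \ JB, d j + m := by
  have h1 := typ_card hT
  rw [Finset.card_sdiff_of_subset hW, hX, h1, hc, ← Finset.sum_sdiff hJ]
  omega

/-- a symmetric closed element is zero -/
lemma sym_zero {d : J → ℕ} {A : Finset J} {X : Finset ι} (hA : A.Nonempty) {v : Md ι J E}
    (hv : v ∈ Ga k d A X) (hS : Sy (act k) X v) : v = 0 := by
  classical
  by_contra hne
  obtain ⟨χ0, hχ0⟩ := Finsupp.support_nonempty_iff.mpr hne
  have hnum : ∀ χ χ' : ι → Col J, Typ d A X χ → Typ d A X χ' → ∀ c, c ≠ .out →
      num χ c = num χ' c := by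
    intro χ χ' h h' c hc
    rcases c with _ | _ | j
    · exact absurd rfl hc
    · have e1 := typ_card h
      have e2 := typ_card h'
      omega
    · rw [h.2, h'.2]
  have key : ∀ n : ℕ, ∀ χ χ' : ι → Col J, Typ d A X χ → Typ d A X χ' →
      (Finset.univ.filter fun x => χ x ≠ χ' x).card ≤ n → v χ = v χ' := by
    intro n
    induction n with
    | zero =>
      intro χ χ' _ _ h
      have h1 : χ = χ' := by
        funext x
        by_contra hx
        have h2 := Finset.card_eq_zero.mp (Nat.le_zero.mp h)
        rw [Finset.filter_eq_empty_iff] at h2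
        exact h2 (Finset.mem_univ x) hx
      rw [h1]
    | succ n ih =>
      intro χ χ' h h' hn
      by_cases heq : χ = χ'
      · rw [heq]
      obtain ⟨x, hx⟩ : ∃ x, χ x ≠ χ' x := by
        by_contra hcon
        push Not at hcon
        exact heq (funext hcon)
      have hxX : x ∈ X := by
        by_contra hxX
        exact hx ((h.out_of hxX).trans (h'.out_of hxX).symm)
      have hc : χ' x ≠ .out := (h'.1 x).mpr hxX
      obtain ⟨y, hy1, hy2⟩ : ∃ y, χ y = χ' x ∧ χ' y ≠ χ' x := by
        by_contra hcon
        push Not at hcon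
        have h2 : (Finset.univ.filter fun t => χ t = χ' x)
            ⊂ Finset.univ.filter fun t => χ' t = χ' x := by
          rw [Finset.ssubset_iff_of_subset]
          · refine ⟨x, ?_, ?_⟩
            · rw [Finset.mem_filter]; exact ⟨Finset.mem_univ _, rfl⟩
            · rw [Finset.mem_filter]; exact fun e => hx e.2
          · intro t ht
            rw [Finset.mem_filter] at ht ⊢
            exact ⟨Finset.mem_univ _, hcon t ht.2⟩
        have h3 := Finset.card_lt_card h2
        have h4 := hnum χ χ' h h' _ hc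
        unfold num at h4
        omega
      have hyX : y ∈ X := by rw [← h.1, hy1]; exact hc
      have e1 : v (χ ∘ ⇑(swap x y)) = v χ := by
        rw [← act_swap_apply (k := k), hS x hxX y hyX]
      rw [← e1]
      refine ih _ χ' (h.swap hxX hyX) h' ?_
      have h5 : (Finset.univ.filter fun t => (χ ∘ ⇑(swap x y)) t ≠ χ' t)
          ⊂ Finset.univ.filter fun t => χ t ≠ χ' t := by
        rw [Finset.ssubset_iff_of_subset]
        · refine ⟨x, ?_, ?_⟩
          · rw [Finset.mem_filter]; exact ⟨Finset.mem_univ _, hx⟩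
          · rw [Finset.mem_filter]
            rintro ⟨_, e⟩
            apply e
            show χ (swap x y x) = χ' x
            rw [swap_apply_left, hy1]
        · intro t ht
          rw [Finset.mem_filter] at ht ⊢
          refine ⟨Finset.mem_univ _, ?_⟩
          by_cases h6 : t = x
          · subst h6; exact hx
          · by_cases h7 : t = y
            · subst h7; rw [hy1]; exact Ne.symm hy2
            · have h8 := ht.2
              simp only [Function.comp] at h8
              rwa [swap_apply_of_ne_of_ne h6 h7] at h8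
      have h6 := Finset.card_lt_card h5
      omega
  obtain ⟨j, hj⟩ := hA
  have h1 := hv.2 j hj
  have h2 := DFunLike.congr_fun h1 (mc j ∘ χ0)
  unfold mg at h2
  rw [pf_apply, Finsupp.mapDomain, Finsupp.sum_apply, Finsupp.sum] at h2
  have h3 : ∀ χ ∈ v.support, (Finsupp.single (mc j ∘ χ) (v χ)) (mc j ∘ χ0)
      = if mc j ∘ χ = mc j ∘ χ0 then v χ0 else 0 := by
    intro χ hχ
    rw [Finsupp.single_apply]
    split_ifs
    · exact key _ χ χ0 (hv.1 χ hχ) (hv.1 χ0 hχ0) le_rfl
    · rfl
  rw [Finset.sum_congr rfl h3, ← Finset.sum_filter, Finset.sum_const, Finsupp.coe_zero,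
    Pi.zero_apply] at h2
  have h4 : (v.support.filter fun χ => mc j ∘ χ = mc j ∘ χ0).card ≠ 0 := by
    rw [Finset.card_ne_zero]
    exact ⟨χ0, Finset.mem_filter.mpr ⟨hχ0, rfl⟩⟩
  rw [← Nat.cast_smul_eq_nsmul k, smul_eq_zero] at h2
  rcases h2 with h2 | h2
  · exact h4 (Nat.cast_eq_zero.mp h2)
  · exact (Finsupp.mem_support_iff.mp hχ0) h2

lemma gen_empty {d : J → ℕ} {X : Finset ι} (hX : X.Nonempty) :
    Ga (E := E) k d ∅ X ≤ PG k d 1 ∅ X := by
  classical
  intro φ hφ
  obtain ⟨u, hu⟩ := hX
  have hco : ∀ χ ∈ φ.support, ∀ x ∈ X, χ x = .co := by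
    intro χ hχ x hx
    rcases hc : χ x with _ | _ | j
    · exact absurd hc (((hφ.1 χ hχ).1 x).mpr hx)
    · rfl
    · exact absurd ((hφ.1 χ hχ).slot hc) (Finset.notMem_empty j)
  have h1 : ins k {u} (fun _ => Col.co) (pf k (fun χ => Function.update χ u .out) φ) = φ := by
    unfold ins
    rw [pf_pf]
    refine pf_id' fun χ hχ => ?_
    funext x
    by_cases hx : x = u
    · subst hx
      rw [Finset.piecewise_eq_of_mem _ _ _ (Finset.mem_singleton_self _), hco χ hχ x hu]
    · rw [Finset.piecewise_eq_of_notMem _ _ _ (by simpa using hx), Function.update_of_ne hx]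
  rw [← h1]
  refine mem_PG_succ hu ?_
  refine ⟨fun χ' hχ' => ?_, fun j hj => absurd hj (Finset.notMem_empty j)⟩
  obtain ⟨χ, hχ, rfl⟩ := pf_supp hχ'
  have hT := hφ.1 χ hχ
  refine ⟨fun x => ?_, fun j => ?_⟩
  · by_cases hx : x = u
    · subst hx
      rw [Function.update_self]
      exact ⟨fun e => absurd rfl e, fun e => absurd rfl (Finset.mem_erase.mp e).1⟩
    · rw [Function.update_of_ne hx, hT.1, Finset.mem_erase]
      exact ⟨fun h => ⟨hx, h⟩, fun h => h.2⟩
  · rw [if_neg (Finset.notMem_empty j)]
    unfold num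
    rw [Finset.card_eq_zero, Finset.filter_eq_empty_iff]
    intro x _ e
    by_cases hx : x = u
    · subst hx
      rw [Function.update_self] at e
      exact nomatch e
    · rw [Function.update_of_ne hx] at e
      exact (Finset.notMem_empty j) (hT.slot e)

/-- generation -/
theorem gen_one (d : J → ℕ) : ∀ (n : ℕ) (A : Finset J) (X : Finset ι) (m : ℕ), A.card = n →
    A.card + 1 ≤ m → X.card = ∑ j ∈ A, d j + m → Ga (E := E) k d A X ≤ PG k d 1 A X := by
  intro n
  induction n using Nat.strong_induction_on with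
  | _ n ih =>
    intro A X m hn hm hX
    have hXpos : 0 < X.card := by omega
    rcases A.eq_empty_or_nonempty with hA | hA
    · subst hA
      exact gen_empty (Finset.card_pos.mp hXpos)
    have hrow : ∀ (L : List ι), 2 ≤ L.length → L.Nodup → ∀ W JB B,
        Row1 d L.toFinset W JB B → JB ⊆ A → W ⊆ X →
        ∀ ζ ∈ Ga (E := E) k d (A \ JB) (X \ W), asym k L (ins k W B ζ) ∈ PG k d 1 A X := by
      intro L hL2 hL W JB B hR hJ hW ζ hζ
      have h1 := row1_card hR
      rw [List.toFinset_card_of_nodup hL] at h1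
      have h2 : (A \ JB).card = A.card - JB.card := Finset.card_sdiff_of_subset hJ
      have h3 : JB.card ≤ A.card := Finset.card_le_card hJ
      have h4 : (X \ W).card = ∑ j ∈ A \ JB, d j + (m - 1) :=
        card_rest hR.typ hR.one hJ hW (by rw [hX]; omega)
      refine row_PG hL hR hJ 1 X hW ζ (ih (A \ JB).card (by omega) (A \ JB) (X \ W) (m - 1) rfl
        (by omega) h4 hζ)
    refine lemS (ρ := act k) (PG k d 1 A X) 2 (X.card - 1) (Ga k d A X) X
      (fun x hx y hy v hv => act_Ga hv hx hy) (by omega) ?_ ?_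
    · intro Y hY hYc v hv hS
      have hYX : Y = X := Finset.eq_of_subset_of_card_le hY (by omega)
      rw [hYX] at hS
      rw [sym_zero hA hv hS]
      exact zero_mem _
    · intro Z hZ hZc v hv hvA
      obtain ⟨z, z', hne, rfl⟩ := Finset.card_eq_two.mp hZc
      have hL : [z, z'].Nodup := by simp [hne]
      have hLZ : [z, z'].toFinset = {z, z'} := by simp
      refine row_reduce (L := [z, z']) hL (by rw [hLZ]; exact hZ) (hrow _ (by simp) hL) ?_ ?_ hv
        (by rw [hLZ]; exact hvA)
      · intro u _ huL
        exact hrow (u :: [z, z']) (by simp) (List.nodup_cons.mpr ⟨huL, hL⟩)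
      · intro W JB B hR hJ hW
        have h1 := row0_card hR
        rw [List.toFinset_card_of_nodup hL] at h1
        have h2 : (A \ JB).card = A.card - JB.card := Finset.card_sdiff_of_subset hJ
        have h3 : JB.card ≤ A.card := Finset.card_le_card hJ
        have h4 : (X \ W).card = ∑ j ∈ A \ JB, d j + m :=
          card_rest hR.typ hR.zero hJ hW (by rw [hX]; omega)
        simp only [List.length_cons, List.length_nil] at h1
        exact ih (A \ JB).card (by omega) (A \ JB) (X \ W) m rfl (by omega) h4

theorem gen (d : J → ℕ) : ∀ (e : ℕ) (A : Finset J) (X : Finset ι) (m : ℕ),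
    A.card + e ≤ m → X.card = ∑ j ∈ A, d j + m → Ga (E := E) k d A X ≤ PG k d e A X := by
  intro e
  induction e with
  | zero => intro A X m _ _; exact le_refl _
  | succ e ih =>
    intro A X m hm hX
    refine (gen_one d _ A X m rfl (by omega) hX).trans ?_
    refine iSup₂_le fun u hu => ?_
    rintro _ ⟨ζ, hζ, rfl⟩
    refine mem_PG_succ hu (ih A (X.erase u) (m - 1) (by omega) ?_ hζ)
    rw [Finset.card_erase_of_mem hu, hX]
    omega

end Pool.Agent.H43.OPC
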