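import Mathlib

set_option autoImplicit false
set_option linter.unusedSectionVars false

/-!
# Lemma S: modules of a symmetric group killed by symmetrisers and antisymmetrisers
(only transpositions are used)
-/

open Equiv

namespace Pool.Agent.H43.OPC

variable {k : Type*} [Field k] [CharZero k]
variable {ι : Type*} [DecidableEq ι]
variable {M : Type*} [AddCommGroup M] [Module k M]

/-- symmetric in the points of `Y` -/
def Sy (ρ : Perm ι →* Module.End k M) (Y : Finset ι) (v : M) : Prop :=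
  ∀ x ∈ Y, ∀ y ∈ Y, ρ (swap x y) v = v

/-- antisymmetric in the points of `Z` -/
def An (ρ : Perm ι →* Module.End k M) (Z : Finset ι) (v : M) : Prop :=
  ∀ x ∈ Z, ∀ y ∈ Z, x ≠ y → ρ (swap x y) v = -v

variable {ρ : Perm ι →* Module.End k M}

lemma Sy.mono {Y Y' : Finset ι} {v : M} (h : Sy ρ Y v) (hY : Y' ⊆ Y) : Sy ρ Y' v :=
  fun x hx y hy => h x (hY hx) y (hY hy)

lemma An.mono {Y Y' : Finset ι} {v : M} (h : An ρ Y v) (hY : Y' ⊆ Y) : An ρ Y' v :=
  fun x hx y hy => h x (hY hx) y (hY hy)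

lemma An.add {Z : Finset ι} {v w : M} (h : An ρ Z v) (h' : An ρ Z w) : An ρ Z (v + w) := by
  intro x hx y hy hxy
  rw [map_add, h x hx y hy hxy, h' x hx y hy hxy]; abel

lemma An.sub {Z : Finset ι} {v w : M} (h : An ρ Z v) (h' : An ρ Z w) : An ρ Z (v - w) := by
  intro x hx y hy hxy
  rw [map_sub, h x hx y hy hxy, h' x hx y hy hxy]; abel

lemma An.smul {Z : Finset ι} {v : M} (c : k) (h : An ρ Z v) : An ρ Z (c • v) := by
  intro x hx y hy hxy
  rw [map_smul, h x hx y hy hxy, smul_neg]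

lemma An.zero {Z : Finset ι} : An ρ Z (0 : M) := by
  intro x hx y hy hxy
  rw [map_zero, neg_zero]

lemma An.sum {Z : Finset ι} {κ : Type*} (s : Finset κ) (f : κ → M)
    (h : ∀ i ∈ s, An ρ Z (f i)) : An ρ Z (∑ i ∈ s, f i) := by
  classical
  induction s using Finset.induction_on with
  | empty => simpa using An.zero
  | insert a s ha ih =>
    rw [Finset.sum_insert ha]
    exact (h a (Finset.mem_insert_self _ _)).add
      (ih fun i hi => h i (Finset.mem_insert_of_mem hi))

lemma rho_mul (π σ : Perm ι) (v : M) : ρ π (ρ σ v) = ρ (π * σ) v := by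
  rw [map_mul]; rfl

lemma rho_swap_swap (x y : ι) (v : M) : ρ (swap x y) (ρ (swap x y) v) = v := by
  rw [rho_mul, swap_mul_self, map_one]; rfl

/-- `(y z)(y' z) = (y' z)(y y')` -/
lemma swap_rel {y y' z : ι} (h1 : y ≠ y') (h2 : y ≠ z) (h3 : y' ≠ z) :
    swap y z * swap y' z = swap y' z * swap y y' := by
  ext x
  simp only [Perm.mul_apply]
  by_cases hx1 : x = y
  · subst hx1
    rw [swap_apply_of_ne_of_ne h1 h2, swap_apply_left, swap_apply_left, swap_apply_left]
  · by_cases hx2 : x = y'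
    · subst hx2
      rw [swap_apply_left, swap_apply_right, swap_apply_right, swap_apply_of_ne_of_ne h1 h2]
    · by_cases hx3 : x = z
      · subst hx3
        rw [swap_apply_right, swap_apply_of_ne_of_ne (Ne.symm h1) h3,
          swap_apply_of_ne_of_ne hx1 hx2, swap_apply_right]
      · rw [swap_apply_of_ne_of_ne hx2 hx3, swap_apply_of_ne_of_ne hx1 hx3,
          swap_apply_of_ne_of_ne hx1 hx2, swap_apply_of_ne_of_ne hx2 hx3]

/-- disjoint swaps commute -/
lemma swap_comm_disj {a b x y : ι} (h1 : a ≠ x) (h2 : a ≠ y) (h3 : b ≠ x) (h4 : b ≠ y) :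
    swap a b * swap x y = swap x y * swap a b := by
  ext t
  simp only [Perm.mul_apply]
  by_cases ha : t = a
  · subst ha
    rw [swap_apply_of_ne_of_ne h1 h2, swap_apply_left, swap_apply_of_ne_of_ne h3 h4]
  · by_cases hb : t = b
    · subst hb
      rw [swap_apply_of_ne_of_ne h3 h4, swap_apply_right, swap_apply_of_ne_of_ne h1 h2]
    · by_cases hx : t = x
      · subst hx
        rw [swap_apply_left, swap_apply_of_ne_of_ne ha hb, swap_apply_left,
          swap_apply_of_ne_of_ne (Ne.symm h2) (Ne.symm h4)]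
      · by_cases hy : t = y
        · subst hy
          rw [swap_apply_right, swap_apply_of_ne_of_ne ha hb, swap_apply_right,
            swap_apply_of_ne_of_ne (Ne.symm h1) (Ne.symm h3)]
        · rw [swap_apply_of_ne_of_ne hx hy, swap_apply_of_ne_of_ne ha hb,
            swap_apply_of_ne_of_ne hx hy]

lemma sy_step {Y : Finset ι} {v : M} (h : Sy ρ Y v) {z : ι} (hz : z ∉ Y) :
    Sy ρ (insert z Y) (v + ∑ y ∈ Y, ρ (swap y z) v) := by
  have key : ∀ y ∈ Y, ρ (swap y z) (v + ∑ y ∈ Y, ρ (swap y z) v)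
      = v + ∑ y ∈ Y, ρ (swap y z) v := by
    intro y hy
    have hyz : y ≠ z := fun e => hz (e ▸ hy)
    rw [map_add, map_sum, ← Finset.add_sum_erase _ _ hy, rho_swap_swap,
      ← Finset.add_sum_erase _ _ hy]
    have : ∑ x ∈ Y.erase y, ρ (swap y z) (ρ (swap x z) v) = ∑ x ∈ Y.erase y, ρ (swap x z) v := by
      refine Finset.sum_congr rfl fun x hx => ?_
      have hxy : x ≠ y := Finset.ne_of_mem_erase hx
      have hxY : x ∈ Y := Finset.mem_of_mem_erase hx
      have hxz : x ≠ z := fun e => hz (e ▸ hxY)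
      rw [rho_mul, swap_rel (Ne.symm hxy) hyz hxz, ← rho_mul, h y hy x hxY]
    rw [this]
    abel
  have key2 : ∀ x ∈ Y, ∀ y ∈ Y, ρ (swap x y) (v + ∑ y ∈ Y, ρ (swap y z) v)
      = v + ∑ y ∈ Y, ρ (swap y z) v := by
    intro x hx y hy
    rw [map_add, h x hx y hy, map_sum]
    congr 1
    have : ∀ t ∈ Y, ρ (swap x y) (ρ (swap t z) v) = ρ (swap (swap x y t) z) v := by
      intro t ht
      have hxz : x ≠ z := fun e => hz (e ▸ hx)
      have hyz : y ≠ z := fun e => hz (e ▸ hy)
      have e1 : swap x y * swap t z = swap (swap x y t) z * swap x y := by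
        rw [Equiv.mul_swap_eq_swap_mul, swap_apply_of_ne_of_ne (Ne.symm hxz) (Ne.symm hyz)]
      rw [rho_mul, e1, ← rho_mul, h x hx y hy]
    rw [Finset.sum_congr rfl this]
    refine Finset.sum_nbij' (fun t => swap x y t) (fun t => swap x y t) ?_ ?_ ?_ ?_ ?_
    · intro t ht
      by_cases h1 : t = x
      · subst h1; rw [swap_apply_left]; exact hy
      · by_cases h2 : t = y
        · subst h2; rw [swap_apply_right]; exact hx
        · rw [swap_apply_of_ne_of_ne h1 h2]; exact ht
    · intro t ht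
      by_cases h1 : t = x
      · subst h1; rw [swap_apply_left]; exact hy
      · by_cases h2 : t = y
        · subst h2; rw [swap_apply_right]; exact hx
        · rw [swap_apply_of_ne_of_ne h1 h2]; exact ht
    · intro t _; exact swap_apply_self x y t ▸ (by simp)
    · intro t _; simp
    · intro t _; rfl
  intro x hx y hy
  rcases Finset.mem_insert.mp hx with hx1 | hx1
  · rcases Finset.mem_insert.mp hy with hy1 | hy1
    · subst hx1; subst hy1
      rw [swap_self]
      exact (map_one ρ ▸ rfl)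
    · subst hx1
      rw [swap_comm]
      exact key y hy1
  · rcases Finset.mem_insert.mp hy with hy1 | hy1
    · subst hy1
      exact key x hx1
    · exact key2 x hx1 y hy1


/-- the twist by the sign -/
noncomputable def tw [Fintype ι] (ρ : Perm ι →* Module.End k M) : Perm ι →* Module.End k M where
  toFun π := ((Perm.sign π : ℤ) : k) • ρ π
  map_one' := by simp
  map_mul' π σ := by
    simp only [map_mul, Units.val_mul, Int.cast_mul]
    rw [smul_mul_smul_comm]

lemma tw_swap [Fintype ι] {x y : ι} (h : x ≠ y) (v : M) :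
    tw ρ (swap x y) v = -ρ (swap x y) v := by
  show (((Perm.sign (swap x y) : ℤˣ) : ℤ) : k) • ρ (swap x y) v = _
  rw [Perm.sign_swap h]
  simp

lemma an_iff_tw [Fintype ι] {Z : Finset ι} {v : M} : An ρ Z v ↔ Sy (tw ρ) Z v := by
  constructor
  · intro h x hx y hy
    by_cases hxy : x = y
    · subst hxy
      rw [swap_self]
      exact (map_one (tw ρ) ▸ rfl)
    · rw [tw_swap hxy, h x hx y hy hxy, neg_neg]
  · intro h x hx y hy hxy
    have := h x hx y hy
    rw [tw_swap hxy] at this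
    rw [← neg_eq_iff_eq_neg, this]

lemma an_step [Fintype ι] {Z : Finset ι} {v : M} (h : An ρ Z v) {y : ι} (hy : y ∉ Z) :
    An ρ (insert y Z) (v - ∑ z ∈ Z, ρ (swap z y) v) := by
  rw [an_iff_tw] at h ⊢
  have h1 := sy_step h hy
  have h2 : ∑ z ∈ Z, tw ρ (swap z y) v = -∑ z ∈ Z, ρ (swap z y) v := by
    rw [← Finset.sum_neg_distrib]
    refine Finset.sum_congr rfl fun z hz => ?_
    exact tw_swap (by rintro rfl; exact hy hz) v
  rw [h2, ← sub_eq_add_neg] at h1
  exact h1

/-- the sum trick -/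
lemma trick {K : Submodule k M} {Y Q : Finset ι} {v : M}
    (hne : 0 < Q.card + Y.card)
    (h1 : ∀ z ∈ Q, v + ∑ y ∈ Y, ρ (swap y z) v ∈ K)
    (h2 : ∀ y ∈ Y, v - ∑ z ∈ Q, ρ (swap z y) v ∈ K) : v ∈ K := by
  have e1 : ∑ z ∈ Q, (v + ∑ y ∈ Y, ρ (swap y z) v) ∈ K := K.sum_mem h1
  have e2 : ∑ y ∈ Y, (v - ∑ z ∈ Q, ρ (swap z y) v) ∈ K := K.sum_mem h2
  rw [Finset.sum_add_distrib, Finset.sum_const] at e1
  rw [Finset.sum_sub_distrib, Finset.sum_const] at e2
  have e3 : ∑ z ∈ Q, ∑ y ∈ Y, ρ (swap y z) v = ∑ y ∈ Y, ∑ z ∈ Q, ρ (swap z y) v := by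
    rw [Finset.sum_comm]
    refine Finset.sum_congr rfl fun y _ => Finset.sum_congr rfl fun z _ => ?_
    rw [swap_comm]
  rw [e3] at e1
  have e4 := K.add_mem e1 e2
  have e5 : Q.card • v + ∑ y ∈ Y, ∑ z ∈ Q, ρ (swap z y) v
      + (Y.card • v - ∑ y ∈ Y, ∑ z ∈ Q, ρ (swap z y) v) = ((Q.card + Y.card : ℕ) : k) • v := by
    rw [Nat.cast_smul_eq_nsmul, add_smul]
    abel
  rw [e5] at e4
  have h3 : ((Q.card + Y.card : ℕ) : k) ≠ 0 := Nat.cast_ne_zero.mpr (by omega)
  have h4 := K.smul_mem (((Q.card + Y.card : ℕ) : k)⁻¹) e4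
  rwa [smul_smul, inv_mul_cancel₀ h3, one_smul] at h4

/-- Lemma S -/
theorem lemS [Fintype ι] (K : Submodule k M) (r : ℕ) : ∀ (R : ℕ) (V : Submodule k M) (X : Finset ι),
    (∀ x ∈ X, ∀ y ∈ X, ∀ v ∈ V, ρ (swap x y) v ∈ V) → (r - 1) * R < X.card →
    (∀ Y ⊆ X, Y.card = R + 1 → ∀ v ∈ V, Sy ρ Y v → v ∈ K) →
    (∀ Z ⊆ X, Z.card = r → ∀ v ∈ V, An ρ Z v → v ∈ K) → V ≤ K := by
  intro R
  induction R with
  | zero =>
    intro V X _ hX h1 _ v hv
    obtain ⟨x, hx⟩ := Finset.card_pos.mp (by omega : 0 < X.card)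
    refine h1 {x} (Finset.singleton_subset_iff.mpr hx) (by simp) v hv ?_
    intro a ha b hb
    rw [Finset.mem_singleton] at ha hb
    subst ha; subst hb
    rw [swap_self]
    exact (map_one ρ ▸ rfl)
  | succ R ih =>
    intro V X hV hX h1 h2
    have key : ∀ n q : ℕ, r ≤ q + n → ∀ Q ⊆ X, Q.card = q → ∀ v ∈ V, An ρ Q v → v ∈ K := by
      intro n
      induction n with
      | zero =>
        intro q hq Q hQ hQc v hv hA
        obtain ⟨Z, hZ, hZc⟩ := Finset.exists_subset_card_eq (by omega : r ≤ Q.card)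
        exact h2 Z (hZ.trans hQ) hZc v hv (hA.mono hZ)
      | succ n ihn =>
        intro q hq Q hQ hQc v hv hA
        rcases Nat.lt_or_ge q r with hqr | hqr
        swap
        · exact ihn q (by omega) Q hQ hQc v hv hA
        let V' : Submodule k M :=
          { carrier := {v | v ∈ V ∧ An ρ Q v}
            add_mem' := fun ha hb => ⟨V.add_mem ha.1 hb.1, ha.2.add hb.2⟩
            zero_mem' := ⟨V.zero_mem, An.zero⟩
            smul_mem' := fun c _ ha => ⟨V.smul_mem c ha.1, ha.2.smul c⟩ }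
        have hcard : (X \ Q).card = X.card - q := by
          rw [Finset.card_sdiff_of_subset hQ, hQc]
        refine ih V' (X \ Q) ?_ ?_ ?_ ?_ ⟨hv, hA⟩
        · rintro x hx y hy w ⟨hw, hwA⟩
          obtain ⟨hx1, hx2⟩ := Finset.mem_sdiff.mp hx
          obtain ⟨hy1, hy2⟩ := Finset.mem_sdiff.mp hy
          refine ⟨hV x hx1 y hy1 w hw, ?_⟩
          intro a ha b hb hab
          have hax : a ≠ x := fun e => hx2 (e ▸ ha)
          have hay : a ≠ y := fun e => hy2 (e ▸ ha)
          have hbx : b ≠ x := fun e => hx2 (e ▸ hb)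
          have hby : b ≠ y := fun e => hy2 (e ▸ hb)
          rw [rho_mul, swap_comm_disj hax hay hbx hby, ← rho_mul, hwA a ha b hb hab, map_neg]
        · rw [hcard]
          have h3 : (r - 1) * (R + 1) = (r - 1) * R + (r - 1) := by ring
          omega
        · rintro Y hY hYc w ⟨hw, hwA⟩ hS
          have hYQ : ∀ y ∈ Y, y ∉ Q := fun y hy => (Finset.mem_sdiff.mp (hY hy)).2
          have hYX : Y ⊆ X := hY.trans Finset.sdiff_subset
          refine trick (ρ := ρ) (Y := Y) (Q := Q) (by omega) ?_ ?_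
          · intro z hz
            have hzY : z ∉ Y := fun h => hYQ z h hz
            refine h1 (insert z Y) (Finset.insert_subset (hQ hz) hYX) ?_ _ ?_ (sy_step hS hzY)
            · rw [Finset.card_insert_of_notMem hzY, hYc]
            · exact V.add_mem hw (V.sum_mem fun y hy => hV y (hYX hy) z (hQ hz) w hw)
          · intro y hy
            refine ihn (q + 1) (by omega) (insert y Q) (Finset.insert_subset (hYX hy) hQ) ?_ _ ?_
              (an_step hwA (hYQ y hy))
            · rw [Finset.card_insert_of_notMem (hYQ y hy), hQc]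
            · exact V.sub_mem hw (V.sum_mem fun z hz => hV z (hQ hz) y (hYX hy) w hw)
        · rintro Z hZ hZc w ⟨hw, _⟩ hwZ
          exact h2 Z (hZ.trans Finset.sdiff_subset) hZc w hw hwZ
    intro v hv
    exact key r 0 (by omega) ∅ (Finset.empty_subset _) rfl v hv (by intro x hx; simp at hx)

end Pool.Agent.H43.OPC
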