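import Pool.Agent.H43.OPC.Gen

set_option autoImplicit false
set_option linter.unusedSectionVars false

/-!
# The theorem on colourings
-/

open Equiv

namespace Pool.Agent.H43.OPC

variable {k : Type*} [Field k] [CharZero k]
variable {ι : Type*} [Fintype ι] [DecidableEq ι] {J : Type*} [Fintype J] [DecidableEq J]
variable {E : Type*} [AddCommGroup E] [Module k E]

/-- the winning states -/
def Win {J : Type*} [DecidableEq J] (d : J → ℕ) (e : ℕ) : ℕ → Finset J → ℕ → Prop
  | 0, A, m => A.card + e ≤ m ∨ 0 < ∑ j ∈ A, d j + m
  | R + 1, A, m => A.card + e ≤ m ∨ (A.Nonempty ∧ 1 ≤ m ∧ ∀ r, 2 ≤ r →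
      ∑ j ∈ A, d j + m ≤ r * (R + 1) → r ≤ A.card + 1 → A.card + 1 ≤ m + r ∧
        ∀ A' ⊆ A, A'.card + 1 = r → Win d e R (A \ A') (m - 1))

/-- The theorem on colourings -/
theorem main (d : J → ℕ) (e : ℕ) : ∀ (R : ℕ) (A : Finset J) (X : Finset ι) (m : ℕ),
    X.card = ∑ j ∈ A, d j + m → Win d e R A m → ∀ K : Submodule k (Md ι J E),
    PG k d e A X ≤ K →
    (∀ Y ⊆ X, Y.card = R + 1 → ∀ φ ∈ Ga k d A X, Sy (act k) Y φ → φ ∈ K) →
    Ga k d A X ≤ K := by
  classical
  intro R
  induction R with
  | zero =>
    intro A X m hX hW K hK hS
    rcases hW with hW | hW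
    · exact (gen d e A X m hW hX).trans hK
    · intro φ hφ
      obtain ⟨x, hx⟩ := Finset.card_pos.mp (by omega : 0 < X.card)
      refine hS {x} (Finset.singleton_subset_iff.mpr hx) (by simp) φ hφ ?_
      intro a ha b hb
      rw [Finset.mem_singleton] at ha hb
      subst ha; subst hb
      rw [swap_self]
      show act k (1 : Perm ι) φ = φ
      rw [map_one]
      rfl
  | succ R ih =>
    intro A X m hX hW K hK hS
    rcases hW with hW | ⟨hAne, hm, hW⟩
    · exact (gen d e A X m hW hX).trans hK
    -- descending induction on the number of points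
    have key : ∀ n r : ℕ, 2 ≤ r → ∑ j ∈ A, d j + m ≤ r * (R + 1) → A.card + 2 ≤ r + n → ∀ Z ⊆ X,
        Z.card = r → ∀ φ ∈ Ga (E := E) k d A X, An (act k) Z φ → φ ∈ K := by
      intro n
      induction n with
      | zero =>
        intro r _ _ hr Z hZ hZc φ hφ hA
        -- too many points
        have h0 : φ = 0 := by
          refine hA.eq_zero fun χ hχ => ?_
          by_contra hcon
          push Not at hcon
          have hT := hφ.1 χ hχ
          have h1 : Set.InjOn χ (Z : Set ι) := fun x hx y hy e => by
            by_contra hne
            exact hcon x hx y hy hne e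
          have h2 : Z.image χ ⊆ insert Col.co (A.image Col.sl) := by
            intro c hc
            obtain ⟨z, hz, rfl⟩ := Finset.mem_image.mp hc
            rw [Finset.mem_insert, Finset.mem_image]
            rcases hc' : χ z with _ | _ | j
            · exact absurd hc' ((hT.1 z).mpr (hZ hz))
            · exact Or.inl rfl
            · exact Or.inr ⟨j, hT.slot hc', rfl⟩
          have h3 := Finset.card_le_card h2
          rw [Finset.card_image_of_injOn h1] at h3
          have h4 := Finset.card_insert_le (Col.co : Col J) (A.image Col.sl)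
          have h5 : (A.image (Col.sl : J → Col J)).card ≤ A.card := Finset.card_image_le
          omega
        rw [h0]
        exact zero_mem _
      | succ n ihn =>
        intro r hr0 hr1 hr2 Z hZ hZc φ hφ hA
        rcases Nat.lt_or_ge r (A.card + 2) with hr3 | hr3
        swap
        · exact ihn r hr0 hr1 (by omega) Z hZ hZc φ hφ hA
        obtain ⟨hg, hsub⟩ := hW r hr0 hr1 (by omega)
        have next : ∀ Z' ⊆ X, Z'.card = r + 1 → ∀ φ ∈ Ga (E := E) k d A X,
            An (act k) Z' φ → φ ∈ K := by
          intro Z' hZ' hZc' φ' hφ' hA'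
          refine ihn (r + 1) (by omega) ?_ (by omega) Z' hZ' hZc' φ' hφ' hA'
          have h1 : (r + 1) * (R + 1) = r * (R + 1) + (R + 1) := by ring
          omega
        set L := Z.toList with hLdef
        have hL : L.Nodup := Z.nodup_toList
        have hLZ : L.toFinset = Z := Z.toList_toFinset
        refine row_reduce (L := L) hL (by rw [hLZ]; exact hZ) ?_ ?_ ?_ hφ (by rw [hLZ]; exact hA)
        · -- rows
          intro W JB B hR hJ hW' ζ hζ
          have hc1 := row1_card hR
          rw [hLZ, hZc] at hc1
          have hXW : (X \ W).card = ∑ j ∈ A \ JB, d j + (m - 1) :=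
            card_rest hR.typ hR.one hJ hW' (by rw [hX]; omega)
          have hZW : ∀ z ∈ Z, z ∈ W := fun z hz => hR.sub (by rw [hLZ]; exact hz)
          have main' := ih (A \ JB) (X \ W) (m - 1) hXW (hsub JB hJ (by omega))
            (K.comap (asym k L ∘ₗ ins k W B)) ?_ ?_
          · exact main' hζ
          · intro ζ' hζ'
            exact hK (row_PG hL hR hJ e X hW' ζ' hζ')
          · intro Y hY hYc ζ' hζ' hSY
            show asym k L (ins k W B ζ') ∈ K
            set v := asym k L (ins k W B ζ') with hv
            have hvG : v ∈ Ga k d A X := row_mem hL hR hJ hW' hζ'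
            have hvA : An (act k) Z v := by
              have := asym_An (k := k) hL (ins k W B ζ')
              rwa [hLZ] at this
            have hYW : ∀ y ∈ Y, y ∉ W := fun y hy => (Finset.mem_sdiff.mp (hY hy)).2
            have hYX : Y ⊆ X := hY.trans Finset.sdiff_subset
            have hvS : Sy (act k) Y v := by
              intro x hx y hy
              have h1 : ∀ ψ : Md ι J E, act k (swap x y) (asym k L ψ)
                  = asym k L (act k (swap x y) ψ) := by
                intro ψ
                refine asym_comm (act k (swap x y)) ?_ ψ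
                intro a ha b hb ψ'
                have haZ : a ∈ Z := by rw [← hLZ]; exact List.mem_toFinset.mpr ha
                have hbZ : b ∈ Z := by rw [← hLZ]; exact List.mem_toFinset.mpr hb
                rw [rho_mul, rho_mul, swap_comm_disj]
                · rintro rfl; exact hYW _ hx (hZW _ haZ)
                · rintro rfl; exact hYW _ hx (hZW _ hbZ)
                · rintro rfl; exact hYW _ hy (hZW _ haZ)
                · rintro rfl; exact hYW _ hy (hZW _ hbZ)
              rw [hv, h1, ← ins_act (hYW x hx) (hYW y hy), hSY x hx y hy]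
            refine trick (ρ := act k) (Y := Y) (Q := Z) (by omega) ?_ ?_
            · intro z hz
              have hzY : z ∉ Y := fun h => hYW z h (hZW z hz)
              refine hS (insert z Y) (Finset.insert_subset (hZ hz) hYX) ?_ _ ?_ (sy_step hvS hzY)
              · rw [Finset.card_insert_of_notMem hzY, hYc]
              · exact (Ga k d A X).add_mem hvG
                  ((Ga k d A X).sum_mem fun y hy => act_Ga hvG (hYX hy) (hZ hz))
            · intro y hy
              have hyZ : y ∉ Z := fun h => hYW y hy (hZW y h)
              refine next (insert y Z) (Finset.insert_subset (hYX hy) hZ) ?_ _ ?_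
                (an_step hvA hyZ)
              · rw [Finset.card_insert_of_notMem hyZ, hZc]
              · exact (Ga k d A X).sub_mem hvG
                  ((Ga k d A X).sum_mem fun z hz => act_Ga hvG (hZ hz) (hYX hy))
        · -- rows with one more point
          intro u hu huL W JB B hR hJ hW' ζ hζ
          have hLu : (u :: L).Nodup := List.nodup_cons.mpr ⟨huL, hL⟩
          have hR' := hR
          refine next ((u :: L).toFinset) ?_ ?_ _ (row_mem hLu hR hJ hW' hζ) (asym_An hLu _)
          · intro x hx
            rw [List.toFinset_cons, hLZ] at hx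
            rcases Finset.mem_insert.mp hx with h | h
            · rw [h]; exact hu
            · exact hZ h
          · rw [List.toFinset_card_of_nodup hLu, List.length_cons, hLdef, Finset.length_toList,
              hZc]
        · -- generation
          intro W JB B hR hJ hW'
          have hc1 := row0_card hR
          rw [hLZ, hZc] at hc1
          have hXW : (X \ W).card = ∑ j ∈ A \ JB, d j + m :=
            card_rest hR.typ hR.zero hJ hW' (by rw [hX]; omega)
          have h2 : (A \ JB).card = A.card - JB.card := Finset.card_sdiff_of_subset hJ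
          have h3 : JB.card ≤ A.card := Finset.card_le_card hJ
          exact gen_one d _ (A \ JB) (X \ W) m rfl (by omega) hXW
    -- Lemma S
    have hT : 0 < ∑ j ∈ A, d j + m := by omega
    obtain ⟨r, hr1, hr2⟩ : ∃ r, ∑ j ∈ A, d j + m ≤ r * (R + 1) ∧
        (r - 1) * (R + 1) < ∑ j ∈ A, d j + m := by
      refine ⟨(∑ j ∈ A, d j + m + R) / (R + 1), ?_, ?_⟩
      · have h1 := Nat.div_add_mod (∑ j ∈ A, d j + m + R) (R + 1)
        have h2 := Nat.mod_lt (∑ j ∈ A, d j + m + R) (by omega : R + 1 > 0)
        rw [mul_comm] at h1
        omega
      · have h1 := Nat.div_mul_le_self (∑ j ∈ A, d j + m + R) (R + 1)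
        rw [Nat.sub_mul, one_mul]
        omega
    rcases Nat.lt_or_ge r 2 with hr3 | hr3
    · -- one row
      refine lemS (ρ := act k) K 2 (X.card - 1) (Ga k d A X) X
        (fun x hx y hy v hv => act_Ga hv hx hy) (by omega) ?_ ?_
      · intro Y hY hYc v hv hS'
        have hYX : Y = X := Finset.eq_of_subset_of_card_le hY (by omega)
        rw [hYX] at hS'
        rw [sym_zero hAne hv hS']
        exact zero_mem _
      · intro Z hZ hZc v hv hvA
        refine key (A.card + 2) 2 le_rfl ?_ (by omega) Z hZ hZc v hv hvA
        refine hr1.trans (Nat.mul_le_mul_right _ (by omega))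
    refine lemS (ρ := act k) K r (R + 1) (Ga k d A X) X
      (fun x hx y hy v hv => act_Ga hv hx hy) (by rw [hX]; exact hr2) hS ?_
    intro Z hZ hZc v hv hvA
    exact key (A.card + 2) r hr3 hr1 (by omega) Z hZ hZc v hv hvA

end Pool.Agent.H43.OPC
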