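import Pool.Agent.H43.OPC.Main
import Pool.Agent.H33.OPArith

set_option autoImplicit false
set_option linter.unusedSectionVars false

/-!
# The states of the recursion of Ottaviani and Paoletti are winning
-/

namespace Pool.Agent.H43.OPC

variable {J : Type*} [DecidableEq J]

lemma not_win {d : J → ℕ} {e : ℕ} {R : ℕ} {A : Finset J} {m : ℕ} (h : ¬ Win d e R A m)
    (hm : 1 ≤ m) (hA : A.Nonempty)
    (hg : ∀ r, 2 ≤ r → ∑ j ∈ A, d j + m ≤ r * R → A.card + 1 ≤ m + r) :
    1 ≤ R ∧ ∃ A' ⊆ A, A'.Nonempty ∧ ∑ j ∈ A, d j + m ≤ (A'.card + 1) * R ∧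
      ¬ Win d e (R - 1) (A \ A') (m - 1) := by
  rcases R with _ | R
  · exfalso
    apply h
    right
    omega
  · refine ⟨by omega, ?_⟩
    by_contra hcon
    push Not at hcon
    apply h
    right
    refine ⟨hA, hm, fun r hr hT hr2 => ⟨hg r hr hT, fun A' hA' hc => ?_⟩⟩
    refine hcon A' hA' (Finset.card_pos.mp (by omega)) (by rw [hc]; exact hT)

theorem win_of {D s i : ℕ} (hD : 2 ≤ D) (hs : 2 ≤ s) (hsi : s + i + 3 ≤ 3 * D) (d : J → ℕ)
    (A : Finset J) (hd : ∀ j, D - 1 ≤ d j) (hA : A.card = s + i)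
    (hsum : ∑ j ∈ A, d j = s * D + i * (D - 1)) :
    Win d D (6 * D - 6 - (2 * s + i)) A (2 * D) := by
  by_contra hW
  set t := 6 * D - 6 - (2 * s + i) with ht
  have htz : (t : ℤ) = 6 * D - 6 - 2 * s - i := by omega
  -- the chain
  have chain : ∀ j : ℕ, j ≤ D + 1 → ∃ a : ℕ → Finset J, a 0 = A ∧
      (∀ l < j, a (l + 1) ⊆ a l ∧ (a (l + 1)).card + 1 ≤ (a l).card ∧
        ((∑ x ∈ a l, d x + (2 * D - l) : ℕ) : ℤ)
          ≤ (((a l).card : ℤ) - (a (l + 1)).card + 1) * (t - l)) ∧
      ¬ Win d D (t - j) (a j) (2 * D - j) ∧ (1 ≤ j → (a j).card + j ≤ 2 * D + 1) ∧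
      (0 < j → j ≤ t) := by
    intro j
    induction j with
    | zero =>
      intro _
      exact ⟨fun _ => A, rfl, fun l hl => absurd hl (Nat.not_lt_zero l), by simpa using hW,
        fun h => by omega, fun h => by omega⟩
    | succ j ih =>
      intro hj
      obtain ⟨a, h0, h1, h2, h3, h4⟩ := ih (by omega)
      have hcard : D + 1 ≤ (a j).card + j := by
        by_contra hcon
        apply h2
        have hle : (a j).card + D ≤ 2 * D - j := by omega
        cases t - j with
        | zero => exact Or.inl hle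
        | succ R => exact Or.inl hle
      have hne : (a j).Nonempty := Finset.card_pos.mp (by omega)
      have hlow : ∀ B : Finset J, (D - 1) * B.card ≤ ∑ x ∈ B, d x := by
        intro B
        have := Finset.card_nsmul_le_sum B d (D - 1) (fun x _ => hd x)
        rw [smul_eq_mul, mul_comm] at this
        exact this
      have hgen : ∀ r, 2 ≤ r → ∑ x ∈ a j, d x + (2 * D - j) ≤ r * (t - j) →
          (a j).card + 1 ≤ 2 * D - j + r := by
        intro r hr hT
        rcases Nat.eq_zero_or_pos j with hj0 | hj0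
        · subst hj0
          rw [h0, hsum] at hT
          rw [h0, hA]
          have h5 := H33.OPA.gen_first D s i (r - 1) (by exact_mod_cast hD) (by exact_mod_cast hs)
            (by positivity) (by
              have : (2 : ℤ) ≤ r := by exact_mod_cast hr
              linarith) (by exact_mod_cast hsi) (by
              have h6 : ((s * D + i * (D - 1) + (2 * D - 0) : ℕ) : ℤ) ≤ ((r * (t - 0) : ℕ) : ℤ) := by
                exact_mod_cast hT
              have h7 : ((D - 1 : ℕ) : ℤ) = (D : ℤ) - 1 := by omega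
              push_cast [Nat.sub_zero] at h6
              rw [h7, htz] at h6
              linarith)
          have h8 : (s : ℤ) + i - (r - 1) ≤ 2 * D := h5
          omega
        · have := h3 hj0
          omega
      obtain ⟨g1, A', g2, g3, g4, g5⟩ := not_win h2 (by omega) hne hgen
      have hA'c : A'.card ≤ (a j).card := Finset.card_le_card g2
      have hA'0 : 0 < A'.card := Finset.card_pos.mpr g3
      have hsd : (a j \ A').card = (a j).card - A'.card := Finset.card_sdiff_of_subset g2
      obtain ⟨b, hb1, hb2⟩ : ∃ b : ℕ → Finset J, b (j + 1) = a j \ A' ∧ ∀ l ≤ j, b l = a l :=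
        ⟨fun l => if l = j + 1 then a j \ A' else a l, if_pos rfl, fun l hl => if_neg (by omega)⟩
      refine ⟨b, ?_, ?_, ?_, ?_, ?_⟩
      · rw [hb2 0 (by omega)]; exact h0
      · intro l hl
        rcases Nat.lt_or_ge l j with hlj | hlj
        · rw [hb2 l (by omega), hb2 (l + 1) (by omega)]
          exact h1 l hlj
        · have hlj' : l = j := by omega
          subst hlj'
          rw [hb1, hb2 l le_rfl]
          refine ⟨Finset.sdiff_subset, by omega, ?_⟩
          have h5 : (((a l).card : ℤ) - (a l \ A').card + 1) = ((A'.card + 1 : ℕ) : ℤ) := by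
            rw [hsd, Nat.cast_sub hA'c]; push_cast; ring
          have h6 : ((t : ℤ) - l) = ((t - l : ℕ) : ℤ) := by omega
          rw [h5, h6]
          exact_mod_cast g4
      · rw [hb1]
        have e1 : t - (j + 1) = t - j - 1 := by omega
        have e2 : 2 * D - (j + 1) = 2 * D - j - 1 := by omega
        rw [e1, e2]
        exact g5
      · intro _
        rw [hb1]
        have h5 := hgen (A'.card + 1) (by omega) g4
        omega
      · intro _
        omega
  obtain ⟨a, h0, h1, _, _, _⟩ := chain (D + 1) le_rfl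
  have hlow : ∀ B : Finset J, ((D : ℤ) - 1) * B.card ≤ ((∑ x ∈ B, d x : ℕ) : ℤ) := by
    intro B
    have := Finset.card_nsmul_le_sum B d (D - 1) (fun x _ => hd x)
    rw [smul_eq_mul] at this
    have h7 : ((D - 1 : ℕ) : ℤ) = (D : ℤ) - 1 := by omega
    calc ((D : ℤ) - 1) * B.card = ((B.card * (D - 1) : ℕ) : ℤ) := by
          rw [Nat.cast_mul, h7]; ring
      _ ≤ _ := by exact_mod_cast this
  refine H33.OPA.no_rows D s i (by exact_mod_cast hD) (by exact_mod_cast hs)
    (by exact_mod_cast hsi) (fun l => ((a l).card : ℤ)) ?_ ?_ ?_ ?_ ?_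
  · show ((a 0).card : ℤ) = _
    rw [h0, hA]; push_cast; ring
  · intro j _
    positivity
  · intro j hj
    have := (h1 j (by omega)).2.1
    exact_mod_cast this
  · have h2 := (h1 0 (by omega)).2.2
    rw [h0] at h2 ⊢
    rw [hsum, hA] at h2
    rw [hA]
    have h7 : ((D - 1 : ℕ) : ℤ) = (D : ℤ) - 1 := by omega
    push_cast [Nat.sub_zero] at h2 ⊢
    rw [h7] at h2
    rw [htz] at h2
    linarith
  · intro j hj1 hj
    have h2 := (h1 j (by omega)).2.2
    have h3 := hlow (a j)
    have h4 : ((2 * D - j : ℕ) : ℤ) = 2 * D - j := by omega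
    rw [Nat.cast_add, h4, htz] at h2
    show ((D : ℤ) - 1) * (a j).card + 2 * D - j ≤ _
    linarith

/-- **The shape theorem in the colouring model.**  `s` slots of size `D`, `i` slots of size
`D - 1`, `2 D` points of the coefficient colour. -/
theorem shape_col {k : Type*} [Field k] [CharZero k] {ι J E : Type*} [Fintype ι] [DecidableEq ι]
    [Fintype J] [DecidableEq J] [AddCommGroup E] [Module k E] {D s i : ℕ} (hD : 2 ≤ D)
    (hs : 2 ≤ s) (hsi : s + i + 3 ≤ 3 * D) (d : J → ℕ) (A : Finset J) (hd : ∀ j, D - 1 ≤ d j)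
    (hA : A.card = s + i) (hsum : ∑ j ∈ A, d j = s * D + i * (D - 1)) (X : Finset ι)
    (hX : X.card = ∑ j ∈ A, d j + 2 * D) (K : Submodule k (Md ι J E))
    (hK : PG k d D A X ≤ K)
    (hS : ∀ Y ⊆ X, Y.card = 6 * D - 6 - (2 * s + i) + 1 → ∀ φ ∈ Ga k d A X,
      Sy (act k) Y φ → φ ∈ K) :
    Ga k d A X ≤ K :=
  main d D _ A X (2 * D) hX (win_of hD hs hsi d A hd hA hsum) K hK hS

end Pool.Agent.H43.OPC
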