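import Pool.Agent.H43.OPC.Dec

set_option autoImplicit false
set_option linter.unusedSectionVars false

/-!
# Reduction to rows
-/

open Equiv

namespace Pool.Agent.H43.OPC

variable {k : Type*} [Field k] [CharZero k]
variable {ι : Type*} [Fintype ι] [DecidableEq ι] {J : Type*} [Fintype J] [DecidableEq J]
variable {E : Type*} [AddCommGroup E] [Module k E]

/-- filtering as a linear map -/
noncomputable def fl (k : Type*) [Field k] {α E : Type*} [AddCommGroup E] [Module k E]
    (p : α → Prop) [DecidablePred p] : (α →₀ E) →ₗ[k] (α →₀ E) where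
  toFun φ := φ.filter p
  map_add' _ _ := Finsupp.filter_add
  map_smul' _ _ := Finsupp.filter_smul

lemma fl_apply {α : Type*} (p : α → Prop) [DecidablePred p] (φ : α →₀ E) :
    fl k p φ = φ.filter p := rfl

/-- the submodule of antisymmetric elements -/
def AnS (k : Type*) [Field k] [CharZero k] {ι J E : Type*} [DecidableEq ι] [AddCommGroup E] [Module k E]
    (Z : Finset ι) : Submodule k (Md ι J E) where
  carrier := {v | An (act k) Z v}
  add_mem' h h' := h.add h'
  zero_mem' := An.zero
  smul_mem' c _ h := h.smul c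

lemma mem_AnS {Z : Finset ι} {v : Md ι J E} : v ∈ AnS k Z ↔ An (act k) Z v := Iff.rfl

lemma fl_act {P : (ι → Col J) → Prop} [DecidablePred P] {x y : ι}
    (hP : ∀ χ, P χ ↔ P (χ ∘ ⇑(swap x y))) (φ : Md ι J E) :
    fl k P (act k (swap x y) φ) = act k (swap x y) (fl k P φ) := by
  rw [act_swap, act_swap, fl_apply, fl_apply, pf_filter (q := P)]
  exact fun χ _ => hP χ

lemma row_reduce1 {d : J → ℕ} {A : Finset J} {X : Finset ι} {L : List ι} (hL : L.Nodup)
    (hLX : L.toFinset ⊆ X) {K : Submodule k (Md ι J E)}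
    (h1 : ∀ W JB B, Row1 d L.toFinset W JB B → JB ⊆ A → W ⊆ X →
      ∀ ζ ∈ Ga (E := E) k d (A \ JB) (X \ W), asym k L (ins k W B ζ) ∈ K)
    {ψ : Md ι J E} (hψ : ψ ∈ Ga k d A X) (hA : An (act k) L.toFinset ψ)
    (hc : ∀ χ ∈ ψ.support, ∃ z ∈ L.toFinset, χ z = .co) : ψ ∈ K := by
  have hc0 : (L.length.factorial : k) ≠ 0 := Nat.cast_ne_zero.mpr (Nat.factorial_ne_zero _)
  have e1 : ψ = ∑ B ∈ ψ.support.image (bt L.toFinset), ψ.filter fun χ => bt L.toFinset χ = B :=
    sum_filter_map _ ψ
  have e2 : (L.length.factorial : k) • ψ ∈ K := by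
    rw [← asym_of_An hL hA]
    have e3 := congrArg (asym k L) e1
    rw [map_sum] at e3
    rw [e3]
    refine K.sum_mem fun B hB => ?_
    obtain ⟨χ0, hχ0, rfl⟩ := Finset.mem_image.mp hB
    have hT := hψ.1 χ0 hχ0
    have hi := hA.inj hχ0
    rw [← ins_zt (k := k)]
    exact h1 _ _ _ (row1_bt hT hLX hi (hc χ0 hχ0)) (js_sub _ _ _) (ws_sub hT hLX) _
      (zt_mem hψ.1 hT hi hLX hψ.2 (Or.inr hc))
  have e4 := K.smul_mem ((L.length.factorial : k)⁻¹) e2
  rwa [smul_smul, inv_mul_cancel₀ hc0, one_smul] at e4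

lemma row1_of_row0 {d : J → ℕ} {Z W : Finset ι} {JB : Finset J} {B : ι → Col J} {u : ι}
    (h : Row0 d Z W JB B) (hu : u ∉ W) :
    Row1 d (insert u Z) (insert u W) JB (Function.update B u .co) := by
  have hne : ∀ x ∈ W, x ≠ u := fun x hx e => hu (e ▸ hx)
  have hBu : B u = .out := h.typ.out_of hu
  refine ⟨⟨fun x => ?_, fun j => ?_⟩, Finset.insert_subset_insert _ h.sub, ?_, ?_, ?_, ?_⟩
  · by_cases hx : x = u
    · subst hx
      rw [Function.update_self]
      exact ⟨fun _ => Finset.mem_insert_self _ _, fun _ e => nomatch e⟩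
    · rw [Function.update_of_ne hx, h.typ.1, Finset.mem_insert]
      exact ⟨fun e => Or.inr e, fun e => e.resolve_left hx⟩
  · rw [← h.typ.2 j]
    unfold num
    congr 1
    ext x
    rw [Finset.mem_filter, Finset.mem_filter]
    by_cases hx : x = u
    · subst hx
      rw [Function.update_self, hBu]
      constructor
      · rintro ⟨_, e⟩; exact nomatch e
      · rintro ⟨_, e⟩; exact nomatch e
    · rw [Function.update_of_ne hx]
  · intro x hx y hy e
    have hcoz : ∀ z ∈ Z, B z ≠ .co := by
      intro z hz e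
      have h1 := h.zero
      unfold num at h1
      rw [Finset.card_eq_zero, Finset.filter_eq_empty_iff] at h1
      exact h1 (Finset.mem_univ z) e
    rcases Finset.mem_insert.mp hx with hx1 | hx1
    · rcases Finset.mem_insert.mp hy with hy1 | hy1
      · rw [hx1, hy1]
      · subst hx1
        rw [Function.update_self, Function.update_of_ne (hne y (h.sub hy1))] at e
        exact absurd e.symm (hcoz y hy1)
    · rcases Finset.mem_insert.mp hy with hy1 | hy1
      · subst hy1
        rw [Function.update_self, Function.update_of_ne (hne x (h.sub hx1))] at e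
        exact absurd e (hcoz x hx1)
      · rw [Function.update_of_ne (hne x (h.sub hx1)), Function.update_of_ne (hne y (h.sub hy1))]
          at e
        exact h.inj hx1 hy1 e
  · have h1 := h.zero
    unfold num at h1 ⊢
    rw [Finset.card_eq_zero, Finset.filter_eq_empty_iff] at h1
    rw [Finset.card_eq_one]
    refine ⟨u, ?_⟩
    ext x
    rw [Finset.mem_filter, Finset.mem_singleton]
    constructor
    · rintro ⟨_, e⟩
      by_contra hx
      rw [Function.update_of_ne hx] at e
      exact h1 (Finset.mem_univ x) e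
    · rintro rfl
      exact ⟨Finset.mem_univ _, Function.update_self _ _ _⟩
  · exact ⟨u, Finset.mem_insert_self _ _, Function.update_self _ _ _⟩
  · intro j hj
    obtain ⟨z, hz, e⟩ := h.hit j hj
    exact ⟨z, Finset.mem_insert_of_mem hz, by rw [Function.update_of_ne (hne z (h.sub hz))]; exact e⟩

lemma ins_insert {W : Finset ι} {B : ι → Col J} {u : ι} (hu : u ∉ W) (φ : Md ι J E) :
    ins k (insert u W) (Function.update B u .co) φ
      = ins k W B (ins k {u} (fun _ => Col.co) φ) := by
  unfold ins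
  rw [pf_pf]
  refine pf_congr fun χ _ => ?_
  funext x
  by_cases hx : x ∈ W
  · have hxu : x ≠ u := fun e => hu (e ▸ hx)
    rw [Finset.piecewise_eq_of_mem _ _ _ (Finset.mem_insert_of_mem hx),
      Finset.piecewise_eq_of_mem _ _ _ hx, Function.update_of_ne hxu]
  · rw [Finset.piecewise_eq_of_notMem _ _ _ hx]
    by_cases hxu : x = u
    · subst hxu
      rw [Finset.piecewise_eq_of_mem _ _ _ (Finset.mem_insert_self _ _), Function.update_self,
        Finset.piecewise_eq_of_mem _ _ _ (Finset.mem_singleton_self _)]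
    · have h1 : x ∉ insert u W := by rw [Finset.mem_insert]; exact fun h => h.elim hxu hx
      have h2 : x ∉ ({u} : Finset ι) := by simpa using hxu
      rw [Finset.piecewise_eq_of_notMem _ _ _ h1, Finset.piecewise_eq_of_notMem _ _ _ h2]

/-- Reduction to rows -/
theorem row_reduce {d : J → ℕ} {A : Finset J} {X : Finset ι} {L : List ι} (hL : L.Nodup)
    (hLX : L.toFinset ⊆ X) {K : Submodule k (Md ι J E)}
    (h1 : ∀ W JB B, Row1 d L.toFinset W JB B → JB ⊆ A → W ⊆ X →
      ∀ ζ ∈ Ga (E := E) k d (A \ JB) (X \ W), asym k L (ins k W B ζ) ∈ K)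
    (h2 : ∀ u ∈ X, u ∉ L → ∀ W JB B, Row1 d (u :: L).toFinset W JB B → JB ⊆ A → W ⊆ X →
      ∀ ζ ∈ Ga (E := E) k d (A \ JB) (X \ W), asym k (u :: L) (ins k W B ζ) ∈ K)
    (h3 : ∀ W JB B, Row0 d L.toFinset W JB B → JB ⊆ A → W ⊆ X →
      Ga (E := E) k d (A \ JB) (X \ W) ≤ PG k d 1 (A \ JB) (X \ W))
    {φ : Md ι J E} (hφ : φ ∈ Ga k d A X) (hA : An (act k) L.toFinset φ) : φ ∈ K := by
  classical
  have hc0 : (L.length.factorial : k) ≠ 0 := Nat.cast_ne_zero.mpr (Nat.factorial_ne_zero _)
  set P0 : (ι → Col J) → Prop := fun χ => ∀ z ∈ L.toFinset, χ z ≠ .co with hP0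
  have hinv : ∀ x ∈ L, ∀ y ∈ L, ∀ χ, P0 χ ↔ P0 (χ ∘ ⇑(swap x y)) := by
    intro x hx y hy χ
    have hx' := List.mem_toFinset.mpr hx
    have hy' := List.mem_toFinset.mpr hy
    constructor
    · intro h z hz
      exact h _ ((swap_mem hx' hy' z).mpr hz)
    · intro h z hz
      have := h (swap x y z) ((swap_mem hx' hy' z).mpr hz)
      simpa using this
  set Tm : Submodule k (Md ι J E) := (K ⊓ (Ga k d A X ⊓ AnS k L.toFinset)).map (fl k P0) with hTm
  have key : ∀ W JB B, Row0 d L.toFinset W JB B → JB ⊆ A → W ⊆ X →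
      ∀ ζ ∈ Ga (E := E) k d (A \ JB) (X \ W), asym k L (ins k W B ζ) ∈ Tm := by
    intro W JB B hR hJ hW ζ hζ
    have hle : PG (E := E) k d 1 (A \ JB) (X \ W) ≤ Tm.comap (asym k L ∘ₗ ins k W B) := by
      refine iSup₂_le fun u hu => ?_
      rintro _ ⟨ζ', hζ', rfl⟩
      obtain ⟨hu1, hu2⟩ := Finset.mem_sdiff.mp hu
      have huL : u ∉ L := fun h => hu2 (hR.sub (List.mem_toFinset.mpr h))
      have hR1 := row1_of_row0 hR hu2
      rw [← List.toFinset_cons] at hR1
      have hW1 : insert u W ⊆ X := Finset.insert_subset hu1 hW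
      have hζ1 : ζ' ∈ Ga k d (A \ JB) (X \ insert u W) := by
        rw [Finset.sdiff_insert]
        exact hζ'
      have hLu : (u :: L).Nodup := List.nodup_cons.mpr ⟨huL, hL⟩
      have m1 := h2 u hu1 huL _ _ _ hR1 hJ hW1 ζ' hζ1
      have m2 := row_mem (k := k) hLu hR1 hJ hW1 hζ1
      have m3 : An (act k) L.toFinset
          (asym k (u :: L) (ins k (insert u W) (Function.update B u .co) ζ')) :=
        (asym_An hLu _).mono (by rw [List.toFinset_cons]; exact Finset.subset_insert _ _)
      refine ⟨_, ⟨m1, m2, m3⟩, ?_⟩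
      rw [asym_cons hL, map_sub, map_sum, ins_insert hu2]
      show _ = asym k L (ins k W B (ins k {u} (fun _ => Col.co) ζ'))
      have hcoz : ∀ z ∈ L.toFinset, B z ≠ .co := by
        intro z hz e
        have h1 := hR.zero
        unfold num at h1
        rw [Finset.card_eq_zero, Finset.filter_eq_empty_iff] at h1
        exact h1 (Finset.mem_univ z) e
      have n1 : ∀ χ ∈ (asym k L (ins k W B (ins k {u} (fun _ => Col.co) ζ'))).support,
          P0 χ ∧ χ u = .co := by
        refine asym_supp hL (P := fun χ => P0 χ ∧ χ u = .co) ?_ ?_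
        · rintro x hx y hy χ ⟨g1, g2⟩
          refine ⟨(hinv x hx y hy χ).mp g1, ?_⟩
          show χ (swap x y u) = .co
          rw [swap_apply_of_ne_of_ne (by rintro rfl; exact huL hx) (by rintro rfl; exact huL hy)]
          exact g2
        · intro χ hχ
          obtain ⟨χ1, hχ1, rfl⟩ := pf_supp hχ
          obtain ⟨χ2, _, rfl⟩ := pf_supp hχ1
          refine ⟨fun z hz => ?_, ?_⟩
          · rw [Finset.piecewise_eq_of_mem _ _ _ (hR.sub hz)]
            exact hcoz z hz
          · rw [Finset.piecewise_eq_of_notMem _ _ _ hu2,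
              Finset.piecewise_eq_of_mem _ _ _ (Finset.mem_singleton_self _)]
      have n2 : fl k P0 (asym k L (ins k W B (ins k {u} (fun _ => Col.co) ζ')))
          = asym k L (ins k W B (ins k {u} (fun _ => Col.co) ζ')) := by
        rw [fl_apply, Finsupp.filter_eq_self_iff]
        intro χ hχ
        exact (n1 χ (Finsupp.mem_support_iff.mpr hχ)).1
      have n3 : ∀ z ∈ L.toFinset, fl k P0
          (act k (swap z u) (asym k L (ins k W B (ins k {u} (fun _ => Col.co) ζ')))) = 0 := by
        intro z hz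
        rw [fl_apply, Finsupp.filter_eq_zero_iff]
        intro χ hχ
        by_contra hne
        rw [act_swap] at hne
        obtain ⟨χ', hχ', rfl⟩ := pf_supp (Finsupp.mem_support_iff.mpr hne)
        have h5 := hχ z hz
        apply h5
        show χ' (swap z u z) = .co
        rw [swap_apply_left]
        exact (n1 χ' hχ').2
      rw [n2, Finset.sum_congr rfl n3, Finset.sum_const_zero, sub_zero]
    exact hle (h3 W JB B hR hJ hW hζ)
  -- the part without the coefficient colour
  have e0 : asym k L (fl k P0 φ) = (L.length.factorial : k) • fl k P0 φ := by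
    rw [← asym_comm (fl k P0) (fun x hx y hy ψ => fl_act (hinv x hx y hy) ψ), asym_of_An hL hA,
      map_smul]
  have e1 : asym k L (fl k P0 φ) ∈ Tm := by
    have e3 : fl k P0 φ = ∑ B ∈ (fl k P0 φ).support.image (bt L.toFinset),
        (fl k P0 φ).filter fun χ => bt L.toFinset χ = B := sum_filter_map _ _
    have e4 := congrArg (asym k L) e3
    rw [map_sum] at e4
    rw [e4]
    refine Tm.sum_mem fun B hB => ?_
    obtain ⟨χ0, hχ0, rfl⟩ := Finset.mem_image.mp hB
    rw [fl_apply] at hχ0
    obtain ⟨h5, h6⟩ := filter_supp hχ0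
    have hT := hφ.1 χ0 h5
    have hi := hA.inj h5
    have e5 : ((fl k P0 φ).filter fun χ => bt L.toFinset χ = bt L.toFinset χ0)
        = φ.filter fun χ => bt L.toFinset χ = bt L.toFinset χ0 := by
      rw [fl_apply]
      ext χ
      rw [Finsupp.filter_apply, Finsupp.filter_apply, Finsupp.filter_apply]
      by_cases h7 : bt L.toFinset χ = bt L.toFinset χ0
      · rw [if_pos h7, if_pos h7, if_pos]
        intro z hz
        rw [← bt_of_mem (sub_ws L.toFinset χ hz), h7, bt_of_mem (sub_ws _ _ hz)]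
        exact h6 z hz
      · rw [if_neg h7, if_neg h7]
    rw [e5, ← ins_zt (k := k)]
    exact key _ _ _ (row0_bt hT hLX hi h6) (js_sub _ _ _) (ws_sub hT hLX) _
      (zt_mem hφ.1 hT hi hLX hφ.2 (Or.inl h6))
  obtain ⟨θ, ⟨t1, t2, t3⟩, t4⟩ := e1
  have m1 : (L.length.factorial : k) • φ - θ ∈ K := by
    refine row_reduce1 hL hLX h1 ((Ga k d A X).sub_mem ((Ga k d A X).smul_mem _ hφ) t2)
      ((hA.smul _).sub t3) ?_
    intro χ hχ
    by_contra hcon
    push Not at hcon
    have h5 : fl k P0 ((L.length.factorial : k) • φ - θ) = 0 := by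
      rw [map_sub, map_smul, t4, e0, sub_self]
    have h6 := DFunLike.congr_fun h5 χ
    rw [fl_apply, Finsupp.filter_apply, if_pos hcon] at h6
    exact (Finsupp.mem_support_iff.mp hχ) h6
  have m2 := K.add_mem m1 t1
  rw [sub_add_cancel] at m2
  have m3 := K.smul_mem ((L.length.factorial : k)⁻¹) m2
  rwa [smul_smul, inv_mul_cancel₀ hc0, one_smul] at m3

end Pool.Agent.H43.OPC
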