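import Pool.Agent.H43.OPC.Asym

set_option autoImplicit false
set_option linter.unusedSectionVars false

/-!
# Rows
-/

open Equiv

namespace Pool.Agent.H43.OPC

variable {k : Type*} [Field k] [CharZero k]
variable {ι : Type*} [Fintype ι] [DecidableEq ι] {J : Type*} [Fintype J] [DecidableEq J]
variable {E : Type*} [AddCommGroup E] [Module k E]

/-- row data with one point of the coefficient colour -/
structure Row1 (d : J → ℕ) (Z W : Finset ι) (JB : Finset J) (B : ι → Col J) : Prop where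
  typ : Typ d JB W B
  sub : Z ⊆ W
  inj : Set.InjOn B (Z : Set ι)
  one : num B .co = 1
  ex : ∃ z ∈ Z, B z = .co
  hit : ∀ j ∈ JB, ∃ z ∈ Z, B z = .sl j

/-- row data without a point of the coefficient colour -/
structure Row0 (d : J → ℕ) (Z W : Finset ι) (JB : Finset J) (B : ι → Col J) : Prop where
  typ : Typ d JB W B
  sub : Z ⊆ W
  inj : Set.InjOn B (Z : Set ι)
  zero : num B .co = 0
  hit : ∀ j ∈ JB, ∃ z ∈ Z, B z = .sl j

lemma Typ.slot {d : J → ℕ} {A : Finset J} {X : Finset ι} {χ : ι → Col J} (h : Typ d A X χ)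
    {x : ι} {j : J} (hx : χ x = .sl j) : j ∈ A := by
  by_contra hj
  have h1 := h.2 j
  rw [if_neg hj] at h1
  have h2 : x ∈ Finset.univ.filter fun x => χ x = .sl j := by
    rw [Finset.mem_filter]; exact ⟨Finset.mem_univ _, hx⟩
  rw [Finset.card_eq_zero.mp h1] at h2
  simp at h2

lemma typ_card {d : J → ℕ} {A : Finset J} {X : Finset ι} {χ : ι → Col J} (h : Typ d A X χ) :
    X.card = ∑ j ∈ A, d j + num χ .co := by
  classical
  have h1 : X = (Finset.univ.filter fun x => χ x = .co)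
      ∪ A.biUnion fun j => Finset.univ.filter fun x => χ x = .sl j := by
    ext x
    rw [Finset.mem_union, Finset.mem_biUnion, Finset.mem_filter, ← h.1]
    constructor
    · intro hx
      rcases hc : χ x with _ | _ | j
      · exact absurd hc hx
      · exact Or.inl ⟨Finset.mem_univ _, rfl⟩
      · refine Or.inr ⟨j, h.slot hc, ?_⟩
        rw [Finset.mem_filter]; exact ⟨Finset.mem_univ _, hc⟩
    · rintro (hx | ⟨j, _, hx⟩)
      · rw [hx.2]; exact fun e => nomatch e
      · rw [(Finset.mem_filter.mp hx).2]; exact fun e => nomatch e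
  have h2 : Disjoint (Finset.univ.filter fun x => χ x = .co)
      (A.biUnion fun j => Finset.univ.filter fun x => χ x = .sl j) := by
    rw [Finset.disjoint_left]
    intro x hx hx'
    obtain ⟨j, _, hj⟩ := Finset.mem_biUnion.mp hx'
    have h3 := (Finset.mem_filter.mp hj).2
    rw [(Finset.mem_filter.mp hx).2] at h3
    exact nomatch h3
  rw [h1, Finset.card_union_of_disjoint h2, Finset.card_biUnion, add_comm]
  · congr 1
    refine Finset.sum_congr rfl fun j hj => ?_
    have := h.2 j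
    rw [if_pos hj] at this
    exact this
  · intro i _ j _ hij
    show Disjoint _ _
    rw [Finset.disjoint_left]
    intro x hx hx'
    rw [Finset.mem_filter] at hx hx'
    rw [hx.2] at hx'
    exact hij (by injection hx'.2)

lemma num_piecewise {W : Finset ι} {B χ : ι → Col J} (hB : ∀ x ∉ W, B x = .out)
    (hχ : ∀ x ∈ W, χ x = .out) {c : Col J} (hc : c ≠ .out) :
    num (W.piecewise B χ) c = num B c + num χ c := by
  classical
  unfold num
  rw [← Finset.card_union_of_disjoint]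
  · congr 1
    ext x
    rw [Finset.mem_union, Finset.mem_filter, Finset.mem_filter, Finset.mem_filter]
    by_cases hx : x ∈ W
    · rw [Finset.piecewise_eq_of_mem _ _ _ hx]
      constructor
      · intro h; exact Or.inl h
      · rintro (h | h)
        · exact h
        · rw [hχ x hx] at h; exact absurd h.2.symm hc
    · rw [Finset.piecewise_eq_of_notMem _ _ _ hx]
      constructor
      · intro h; exact Or.inr h
      · rintro (h | h)
        · rw [hB x hx] at h; exact absurd h.2.symm hc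
        · exact h
  · rw [Finset.disjoint_left]
    intro x hx hx'
    rw [Finset.mem_filter] at hx hx'
    by_cases h : x ∈ W
    · rw [hχ x h] at hx'; exact hc hx'.2.symm
    · rw [hB x h] at hx; exact hc hx.2.symm

lemma Typ.out_of {d : J → ℕ} {A : Finset J} {X : Finset ι} {χ : ι → Col J} (h : Typ d A X χ)
    {x : ι} (hx : x ∉ X) : χ x = .out := by
  by_contra hne
  exact hx ((h.1 x).mp hne)

lemma typ_piecewise {d : J → ℕ} {A JB : Finset J} {X W : Finset ι} {B χ : ι → Col J}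
    (hB : Typ d JB W B) (hχ : Typ d (A \ JB) (X \ W) χ) (hJ : JB ⊆ A) (hW : W ⊆ X) :
    Typ d A X (W.piecewise B χ) := by
  refine ⟨fun x => ?_, fun j => ?_⟩
  · by_cases hx : x ∈ W
    · rw [Finset.piecewise_eq_of_mem _ _ _ hx, hB.1]
      exact ⟨fun h => hW h, fun _ => hx⟩
    · rw [Finset.piecewise_eq_of_notMem _ _ _ hx, hχ.1, Finset.mem_sdiff]
      exact ⟨fun h => h.1, fun h => ⟨h, hx⟩⟩
  · have hc : (Col.sl j : Col J) ≠ .out := fun e => nomatch e
    rw [num_piecewise (fun x hx => hB.out_of hx)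
      (fun x hx => hχ.out_of (fun h => (Finset.mem_sdiff.mp h).2 hx)) hc, hB.2, hχ.2]
    by_cases h1 : j ∈ JB
    · rw [if_pos h1, if_pos (hJ h1), if_neg (fun h => (Finset.mem_sdiff.mp h).2 h1), add_zero]
    · rw [if_neg h1, zero_add]
      by_cases h2 : j ∈ A
      · rw [if_pos h2, if_pos (Finset.mem_sdiff.mpr ⟨h2, h1⟩)]
      · rw [if_neg h2, if_neg (fun h => h2 (Finset.mem_sdiff.mp h).1)]

lemma two_supp {Z : Finset ι} {x y : ι} (hx : x ∈ Z) (hy : y ∈ Z) (χ : ι → Col J)
    (h : ∃ a ∈ Z, ∃ b ∈ Z, a ≠ b ∧ χ a = .co ∧ χ b = .co) :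
    ∃ a ∈ Z, ∃ b ∈ Z, a ≠ b ∧ (χ ∘ ⇑(swap x y)) a = .co ∧ (χ ∘ ⇑(swap x y)) b = .co := by
  obtain ⟨a, ha, b, hb, hab, h1, h2⟩ := h
  refine ⟨swap x y a, (swap_mem hx hy a).mpr ha, swap x y b, (swap_mem hx hy b).mpr hb,
    fun e => hab ((swap x y).injective e), ?_, ?_⟩
  · simpa using h1
  · simpa using h2

/-- Lemma M -/
theorem row_mem {d : J → ℕ} {A JB : Finset J} {X W : Finset ι} {B : ι → Col J} {L : List ι}
    (hL : L.Nodup) (hR : Row1 d L.toFinset W JB B) (hJ : JB ⊆ A) (hW : W ⊆ X)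
    {ζ : Md ι J E} (hζ : ζ ∈ Ga k d (A \ JB) (X \ W)) :
    asym k L (ins k W B ζ) ∈ Ga k d A X := by
  classical
  have hLX : ∀ x ∈ L, x ∈ X := fun x hx => hW (hR.sub (List.mem_toFinset.mpr hx))
  refine ⟨?_, ?_⟩
  · refine asym_supp hL (fun x hx y hy χ hχ => hχ.swap (hLX x hx) (hLX y hy)) ?_
    intro χ hχ
    obtain ⟨χ', hχ', rfl⟩ := pf_supp hχ
    exact typ_piecewise hR.typ (hζ.1 χ' hχ') hJ hW
  · intro j hj
    rw [asym_comm _ (fun x _ y _ φ => mg_act j _ φ), mg_ins]
    by_cases hjB : j ∈ JB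
    · refine (asym_An hL _).eq_zero ?_
      have h1 : ∀ χ ∈ (asym k L (ins k W (fun x => mc j (B x)) (mg k j ζ))).support,
          ∃ a ∈ L.toFinset, ∃ b ∈ L.toFinset, a ≠ b ∧ χ a = .co ∧ χ b = .co := by
        refine asym_supp (P := fun χ => ∃ a ∈ L.toFinset, ∃ b ∈ L.toFinset,
          a ≠ b ∧ χ a = .co ∧ χ b = .co) hL (fun x hx y hy χ hχ =>
          two_supp (List.mem_toFinset.mpr hx) (List.mem_toFinset.mpr hy) χ hχ) ?_
        intro χ hχ
        obtain ⟨χ', _, rfl⟩ := pf_supp hχ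
        obtain ⟨z0, hz0, e0⟩ := hR.ex
        obtain ⟨z1, hz1, e1⟩ := hR.hit j hjB
        refine ⟨z0, hz0, z1, hz1, ?_, ?_, ?_⟩
        · rintro rfl
          rw [e0] at e1
          exact nomatch e1
        · rw [Finset.piecewise_eq_of_mem _ _ _ (hR.sub hz0), e0]; rfl
        · rw [Finset.piecewise_eq_of_mem _ _ _ (hR.sub hz1), e1]; simp [mc]
      intro χ hχ
      obtain ⟨a, ha, b, hb, hab, h2, h3⟩ := h1 χ hχ
      exact ⟨a, ha, b, hb, hab, h2.trans h3.symm⟩
    · rw [hζ.2 j (Finset.mem_sdiff.mpr ⟨hj, hjB⟩), map_zero, map_zero]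

lemma typ_co (d : J → ℕ) (u : ι) (A : Finset J) {X : Finset ι} {χ : ι → Col J} (hu : u ∈ X)
    (h : Typ d A (X.erase u) χ) :
    Typ d A X (({u} : Finset ι).piecewise (fun _ => Col.co) χ) := by
  classical
  refine ⟨fun x => ?_, fun j => ?_⟩
  · by_cases hx : x = u
    · subst hx
      rw [Finset.piecewise_eq_of_mem _ _ _ (Finset.mem_singleton_self _)]
      exact ⟨fun _ => hu, fun _ e => nomatch e⟩
    · rw [Finset.piecewise_eq_of_notMem _ _ _ (by simpa using hx), h.1, Finset.mem_erase]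
      exact ⟨fun h => h.2, fun h => ⟨hx, h⟩⟩
  · rw [← h.2 j]
    unfold num
    congr 1
    ext x
    rw [Finset.mem_filter, Finset.mem_filter]
    by_cases hx : x = u
    · subst hx
      rw [Finset.piecewise_eq_of_mem _ _ _ (Finset.mem_singleton_self _),
        h.out_of (Finset.notMem_erase _ _)]
      constructor
      · intro h; exact nomatch h.2
      · intro h; exact nomatch h.2
    · rw [Finset.piecewise_eq_of_notMem _ _ _ (by simpa using hx)]

lemma ins_co_Ga {d : J → ℕ} {A : Finset J} {X : Finset ι} {u : ι} (hu : u ∈ X) {ζ : Md ι J E}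
    (hζ : ζ ∈ Ga k d A (X.erase u)) : ins k {u} (fun _ => Col.co) ζ ∈ Ga k d A X := by
  classical
  refine ⟨fun χ hχ => ?_, fun j hj => ?_⟩
  · obtain ⟨χ', hχ', rfl⟩ := pf_supp hχ
    exact typ_co d u A hu (hζ.1 χ' hχ')
  · rw [mg_ins, hζ.2 j hj, map_zero]

lemma PG_le_Ga {d : J → ℕ} {A : Finset J} : ∀ (e : ℕ) (X : Finset ι),
    PG (E := E) k d e A X ≤ Ga k d A X := by
  intro e
  induction e with
  | zero => intro X; exact le_refl _
  | succ e ih =>
    intro X
    refine iSup₂_le fun u hu => ?_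
    rintro _ ⟨ζ, hζ, rfl⟩
    exact ins_co_Ga hu (ih _ hζ)

lemma mem_PG_succ {d : J → ℕ} {A : Finset J} {e : ℕ} {X : Finset ι} {u : ι} (hu : u ∈ X)
    {ζ : Md ι J E} (hζ : ζ ∈ PG k d e A (X.erase u)) :
    ins k {u} (fun _ => Col.co) ζ ∈ PG k d (e + 1) A X :=
  (le_iSup₂_of_le (f := fun u (_ : u ∈ X) =>
    (PG k d e A (X.erase u)).map (ins k {u} fun _ => Col.co)) u hu le_rfl)
    (Submodule.mem_map_of_mem hζ)

/-- rows of `P_e` are in `P_e` -/
theorem row_PG {d : J → ℕ} {A JB : Finset J} {W : Finset ι} {B : ι → Col J} {L : List ι}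
    (hL : L.Nodup) (hR : Row1 d L.toFinset W JB B) (hJ : JB ⊆ A) :
    ∀ (e : ℕ) (X : Finset ι), W ⊆ X → ∀ ζ : Md ι J E, ζ ∈ PG k d e (A \ JB) (X \ W) →
    asym k L (ins k W B ζ) ∈ PG k d e A X := by
  classical
  intro e
  induction e with
  | zero => intro X hW ζ hζ; exact row_mem hL hR hJ hW hζ
  | succ e ih =>
    intro X hW ζ hζ
    have key : PG (E := E) k d (e + 1) (A \ JB) (X \ W)
        ≤ (PG k d (e + 1) A X).comap (asym k L ∘ₗ ins k W B) := by
      refine iSup₂_le fun u hu => ?_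
      rintro _ ⟨ζ', hζ', rfl⟩
      obtain ⟨hu1, hu2⟩ := Finset.mem_sdiff.mp hu
      have huL : u ∉ L := fun h => hu2 (hR.sub (List.mem_toFinset.mpr h))
      show asym k L (ins k W B (ins k {u} (fun _ => Col.co) ζ')) ∈ PG k d (e + 1) A X
      rw [ins_ins_disj (Finset.disjoint_singleton_right.mpr hu2), ← asym_comm]
      · refine mem_PG_succ hu1 (ih (X.erase u) ?_ ζ' ?_)
        · intro x hx
          exact Finset.mem_erase.mpr ⟨fun e => hu2 (e ▸ hx), hW hx⟩
        · rwa [Finset.erase_sdiff_comm]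
      · intro x hx y hy φ
        refine ins_act ?_ ?_ φ
        · rw [Finset.mem_singleton]; rintro rfl; exact huL hx
        · rw [Finset.mem_singleton]; rintro rfl; exact huL hy
    exact key hζ

end Pool.Agent.H43.OPC
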